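import Mathlib

/-! # Project SZ: integral means of `f'` for the class `S` (MP_433f59_an) and Szegő's problem for `p = 5` (MP_283627_an)

Background (proved in project GC): for `f ∈ S`, `H = log (v² f'/f²)`, the tail bound
`measure {Re H ≥ x} ≤ C exp (-(L - √(L² - x²)))`. Here it is localized: `f` is expanded at the points of the dyadic tree.
All constants are absolute and may be as bad as you like. -/

set_option autoImplicit false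
open Complex Metric Set Filter Topology MeasureTheory

namespace V5helper73.SZ

/-- the class `S` -/
structure InS (f : ℂ → ℂ) : Prop where
  diff : DifferentiableOn ℂ f (ball 0 1)
  inj : InjOn f (ball 0 1)
  zero : f 0 = 0
  one : deriv f 0 = 1

/-- the points of the dyadic tree: `(1 - 2^(-k)) exp (2 π I i / 2^k)`, `i < 2^k`; the ancestor of `(m, j)` at the level
`k ≤ m` is `(k, j / 2^(m-k))` -/
noncomputable def pt (k i : ℕ) : ℂ :=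
  ((1 - (1 / 2 : ℝ) ^ k : ℝ) : ℂ) * Complex.exp (((2 * Real.pi * i / 2 ^ k : ℝ) : ℂ) * Complex.I)

/-- `|f'(z)| (1 - |z|²)` -/
noncomputable def dd (f : ℂ → ℂ) (z : ℂ) : ℝ := ‖deriv f z‖ * (1 - ‖z‖ ^ 2)

/-- the Koebe transform of `f` at `a` -/
noncomputable def kt (f : ℂ → ℂ) (a : ℂ) (ξ : ℂ) : ℂ :=
  (f ((ξ + a) / (1 + (starRingEnd ℂ) a * ξ)) - f a) / (deriv f a * (1 - ‖a‖ ^ 2))

/-- the automorphism of the disc that takes `a` to `0` -/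
noncomputable def bm (a z : ℂ) : ℂ := (z - a) / (1 - (starRingEnd ℂ) a * z)

/-- **KT.** (120 lines)  The Koebe transform is in the class `S`, with the obvious relations.
(`deriv f a ≠ 0` by injectivity: `Pool.Agent.Helper405.Conv.deriv_ne_zero_of_injOn`; automorphisms `bl` of the disc with
derivative, norm and injectivity lemmas in Pool.Agent.Helper240.ZFM.Riem, see R243/HD/GR.lean.) -/
def S_KT : Prop := ∀ f : ℂ → ℂ, DifferentiableOn ℂ f (ball 0 1) → InjOn f (ball 0 1) → ∀ a ∈ ball (0:ℂ) 1,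
  InS (kt f a) ∧ 0 < dd f a ∧ ∀ z ∈ ball (0:ℂ) 1, bm a z ∈ ball (0:ℂ) 1 ∧
    kt f a (bm a z) * (deriv f a * (1 - ‖a‖ ^ 2)) = f z - f a ∧
    ‖deriv (kt f a) (bm a z)‖ * (1 - ‖bm a z‖ ^ 2) * dd f a = dd f z

/-- **TWO.** (100 lines)  Two-point estimates.
Proof. Apply to `g = kt f a`, `ξ = bm a z` (`h : S_KT`): (1) `g` omits `g(ξ)` in `|v| < |ξ|`, so `|ξ| ≤ 4 |g(ξ)|`
(`Pool.Agent.H713R5.QJ.kb_omit` in H713R5/QJ/TKBP.lean, Koebe's quarter theorem); (2) the growth theorem and (3) the distortion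
theorem: `HD243.GR308.growth`, `.distortion` in Pool.Agent.R243.HD.GR (or Pool.Agent.V1187.MA.Growth).
(4): if `ρ = ‖bm a z‖ ≥ 1/2` then (1) gives `dd f a ≤ 8 ‖f z - f a‖`; if `ρ < 1/2` then (3) with `a, z` exchanged
(`‖bm z a‖ = ‖bm a z‖`) gives `dd f a / 8 ≤ 2 dd f z`. -/
def S_TWO : Prop := ∀ f : ℂ → ℂ, DifferentiableOn ℂ f (ball 0 1) → InjOn f (ball 0 1) → ∀ a ∈ ball (0:ℂ) 1, ∀ z ∈ ball (0:ℂ) 1,
  dd f a * ‖bm a z‖ ≤ 4 * ‖f z - f a‖ ∧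
  ‖f z - f a‖ * (1 - ‖bm a z‖) ^ 2 ≤ dd f a * ‖bm a z‖ ∧
  dd f z * (1 - ‖bm a z‖) ^ 3 ≤ 2 * dd f a ∧
  dd f a ≤ 16 * (‖f z - f a‖ + dd f z)

/-- **GEO.** (120 lines)  The geometry of the tree.
Proof. `1 - ‖bm a z‖² = (1 - |a|²)(1 - |z|²)/|1 - conj a z|²`. (2): `|1 - conj a z| ≤ 1 - |a||z| + |angle| ≤ 2^(-k) (3/2 + π)`,
so `1 - ‖bm‖² ≥ (1/2)/(3/2+π)² > 0.023 > 1 - 0.99²`. (3): `‖bm‖²/(1 - ‖bm‖²) = |z - a|²/((1-|a|²)(1-|z|²))`,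
`|z - a| ≥ (1/2) · 4 · 2^(-k)` (chord `≥ (2/π)` angle, the angle is `≥ 2π 2^(-k)` modulo `2π`), `1 - |a|² ≤ 2 · 2^(-k)`.
(4) is for points of the same dyadic cell and nearly the same radius, same computation. -/
def S_GEO : Prop :=
  (∀ k i : ℕ, pt k i ∈ ball (0:ℂ) 1 ∧ (1 / 2 : ℝ) ^ k ≤ 1 - ‖pt k i‖ ^ 2 ∧ 1 - ‖pt k i‖ ^ 2 ≤ 2 * (1 / 2 : ℝ) ^ k) ∧
  (∀ k i : ℕ, ‖bm (pt k (i / 2)) (pt (k + 1) i)‖ ≤ 99 / 100) ∧
  (∀ k i i' : ℕ, 1 ≤ k → i < 2 ^ k → i' < 2 ^ k → i ≠ i' → 1 / 2 ≤ ‖bm (pt k i) (pt k i')‖) ∧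
  (∀ (k i : ℕ) (r θ : ℝ), 1 - 2 * (1 / 2 : ℝ) ^ k ≤ r → r ≤ 1 - (1 / 2 : ℝ) ^ k → 0 ≤ r →
    2 * Real.pi * i / 2 ^ k ≤ θ → θ ≤ 2 * Real.pi * (i + 1) / 2 ^ k →
    ‖bm (pt k i) (circleMap 0 r θ)‖ ≤ 995 / 1000 ∧ ‖bm (circleMap 0 r θ) (pt k i)‖ ≤ 995 / 1000)

/-- the data on the dyadic tree: values `w k i = f (pt k i)` and sizes `d k i = dd f (pt k i)` -/
structure Tree (C : ℝ) (w : ℕ → ℕ → ℂ) (d : ℕ → ℕ → ℝ) : Prop where
  pos : ∀ k i, 0 < d k i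
  step : ∀ k i, ‖w (k + 1) i - w k (i / 2)‖ ≤ C * d k (i / 2)
  child : ∀ k i, d (k + 1) i ≤ C * d k (i / 2)
  parent : ∀ k i, d k (i / 2) ≤ C * d (k + 1) i
  sep : ∀ k i i', 1 ≤ k → i < 2 ^ k → i' < 2 ^ k → i ≠ i' → d k i ≤ C * ‖w k i - w k i'‖
  root : w 0 0 = 0
  one : d 0 0 = 1
  up : ∀ k i, ‖w k i‖ ≤ C * 4 ^ k
  low : ∀ k i, 1 ≤ k → d k i ≤ C * ‖w k i‖
  whit : ∀ k i l j, d k i ≤ C * (‖w k i - w l j‖ + d l j)

/-- **TREE.** (60 lines, hypotheses `S_KT`, `S_TWO`, `S_GEO`)  `up`: growth theorem (or TWO with `a = 0`: `bm 0 z = z`),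
`low`: TWO (1) with `z = 0`: `‖bm a 0‖ = ‖a‖ ≥ 1/2`. -/
def S_TREE : Prop := ∀ f : ℂ → ℂ, InS f → Tree 2000000 (fun k i => f (pt k i)) (fun k i => dd f (pt k i))

/-- `(k, i)` is admissible: the size at the ancestors is not much larger -/
def adm (δ : ℝ) (d : ℕ → ℕ → ℝ) (k i : ℕ) : Prop := ∀ l : ℕ, l ≤ k → d l (i / 2 ^ (k - l)) ≤ d k i * 2 ^ (δ * ((k : ℝ) - l))

/-- **ATT.** (80 lines)  Every leaf is attached to an admissible ancestor.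
Proof. Choose `k ≤ m` with `d k (j / 2^(m-k)) * 2^(δ k)` maximal (`Nat.div_div_eq_div_mul` for ancestors of ancestors). Then
`adm`, and `d l (j / 2^(m-l)) ≤ d k (..) 2^(-δ (l-k))` for `l ≥ k`, so by `step` the distance is at most
`C d k (..) ∑ 2^(-δ s) = C/(1 - 2^(-δ)) d k (..)`. -/
def S_ATT : Prop := ∀ C δ : ℝ, 1 ≤ C → 0 < δ → ∀ (w : ℕ → ℕ → ℂ) (d : ℕ → ℕ → ℝ), Tree C w d → ∀ m j : ℕ, j < 2 ^ m →
  ∃ k : ℕ, k ≤ m ∧ adm δ d k (j / 2 ^ (m - k)) ∧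
    ‖w m j - w k (j / 2 ^ (m - k))‖ ≤ C / (1 - 2 ^ (-δ)) * d k (j / 2 ^ (m - k))

/-- **AR.** (60 lines)  Packing: the points `w m j` with `ε ≤ d m j` are at distances `≥ ε/C` from each other (`sep`), so the discs
of radius `ε/(2C)` are disjoint, in a disc of radius `C σ + ε/(2C)` (compare areas, or use an existing packing lemma). -/
def S_AR : Prop := ∀ C : ℝ, 1 ≤ C → ∃ K : ℝ, ∀ (w : ℕ → ℕ → ℂ) (d : ℕ → ℕ → ℝ), Tree C w d → ∀ (m : ℕ) (s : Finset ℕ) (σ ε : ℝ) (c : ℂ),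
  0 < ε → 0 ≤ σ → (∀ j ∈ s, j < 2 ^ m ∧ ‖w m j - c‖ ≤ C * σ ∧ ε ≤ d m j) → (s.card : ℝ) ≤ K * (σ / ε + 1) ^ 2

/-- **SUMX.** (200 lines, hypothesis `S_AR`)  The sum over the admissible vertices of a level.
Proof. `δ = α - β`; `k = 0` is trivial (`one`, `root`). Let `k ≥ 1`, `I = (k, i)` admissible, `d = d k i`, `x = ‖w k i‖`.
By `step` and `adm`, `x ≤ ‖w_l‖ + C ∑_{l ≤ q < k} d_q ≤ ‖w_l‖ + C' d 2^(δ(k-l))` for the ancestor of level `l`, `C' = C/(1 - 2^(-δ))`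
(`w_0 = 0`). Take the least `l ≤ k` with `C' d 2^(δ(k-l)) ≤ x/2` (if there is none, i.e. `x < 2 C' d`, skip this): then
`l ≥ 1`, `x ≤ 2 ‖w_l‖ ≤ 2 C 4^l` (`up`) and `C' d 2^(δ(k-l+1)) > x/2`, so `4^(k-l) ≥ (x/(2^(δ+1) C' d))^(2/δ)`. In both cases
(*) `x (x/d)^(2/δ) ≤ K 4^k`, i.e. `d ≥ c x^(1+δ/2) 2^(-kδ)`. Now sum over the dyadic classes `2^a ≤ x < 2^(a+1)` (`a : ℤ`, `2^a ≤ C 4^k`):
by AR (applied in dyadic classes of `d`, or rather directly: `∑ d² ≤ K 4^a` over the class by comparing areas) and `α ≤ 2`,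
`∑ d^α x^(-β) ≤ 2^(-aβ) (min d)^(α-2) ∑ d² ≤ K 2^(-aβ) (2^(a(1+δ/2)) 2^(-kδ))^(α-2) 4^a = K 2^(kδ(2-α)) 2^(a δ α/2)`,
a geometric series in `a ≤ 2k + K`, with the sum `≤ K 2^(kδ(2-α)) 2^(kδα) = K 4^(kδ)`. (Use `d ≤ C x`, so `x + d` is comparable
with `x`.) If you prefer: double dyadic classes `x ~ 2^a`, `d ~ 2^(a-b)`: at most `K 4^b` points by AR, and `2^a ≤ K 4^k 2^(-2b/δ)` by (*). -/
def S_SUMX : Prop := ∀ C α β : ℝ, 1 ≤ C → 0 ≤ β → β < α → α ≤ 2 → ∃ K : ℝ, ∀ (w : ℕ → ℕ → ℂ) (d : ℕ → ℕ → ℝ), Tree C w d →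
  ∀ (k : ℕ) (s : Finset ℕ), (∀ i ∈ s, i < 2 ^ k ∧ adm (α - β) d k i) →
    ∑ i ∈ s, (d k i) ^ α * (‖w k i‖ + d k i) ^ (-β) ≤ K * 4 ^ ((k : ℝ) * (α - β))

/-- **CNT.** (200 lines)  From the inequality for the sums to exponential sums.
Proof. (1) For `x > 0` and `Q = {j ∈ P : Re h_j ≥ x}`, `n = |Q| ≥ 1`: `n x ≤ ‖∑_Q h‖`, so with `q = y/n ≥ log n - C`:
`2x ≤ lam (L - q) + (L + q)/lam` for all `lam > 0`, hence (if `q ≥ 0`) `x² + q² ≤ L²` and `log n ≤ C + √(L² - x²)`, in particular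
`x ≤ L` (this computation is in V5helper73.GC.TAILG, `countG`: copy it; if `q < 0` then `log n ≤ C`; `x ≤ L` by `lam = 1`).
(2) `∑_P e^{T Re h} ≤ e^T |P| + ∑_{1 ≤ k ≤ L} e^{T(k+1)} |{Re h ≥ k}| ≤ e^T |P| + L max_k e^{T(k+1) + C + √(L² - k²)}`
and `T k + √(L² - k²) ≤ L √(1+T²)`. -/
def S_CNT : Prop := ∀ C T : ℝ, 0 ≤ C → 0 ≤ T → ∃ K : ℝ, 0 ≤ K ∧ ∀ (P : Finset ℕ) (h : ℕ → ℂ) (L : ℝ), 0 < L →
  (∀ Q ⊆ P, Q.Nonempty → ∃ y : ℝ, (Q.card : ℝ) * (Real.log Q.card - C) ≤ y ∧ ∀ lam : ℝ, 0 < lam →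
    ‖∑ j ∈ Q, h j‖ ≤ (lam * (Q.card * L - y) + (Q.card * L + y) / lam) / 2) →
  ∑ j ∈ P, Real.exp (T * (h j).re) ≤ K * P.card + K * (1 + L) * Real.exp (Real.sqrt (1 + T ^ 2) * L)

/-- the off-diagonal sum (the same as `V5helper73.GC.yy`) -/
noncomputable def yb {n : ℕ} (ζ : Fin n → ℂ) : ℝ :=
  (2 / Real.pi) * ∑ j : Fin n, ∑ l : Fin n,
    if l < j then (-Complex.log (1 - ζ j * (starRingEnd ℂ) (ζ l))).im / ((j : ℝ) - (l : ℝ)) else 0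

/-- **LOGM.** (60 lines)  The logarithm under the automorphism.
Proof. Both sides have the same exponential, so their difference `D(a)` is in `2π I ℤ`; all logarithms are at points with positive
real part, so `D` is continuous on the ball (in `a`), and `D(0) = 0`; the ball is connected. (Or: each imaginary part is in
`(-π/2, π/2)` and ... ; choose your way.) -/
def S_LOGM : Prop := ∀ a ∈ ball (0:ℂ) 1, ∀ z ∈ ball (0:ℂ) 1, ∀ u ∈ ball (0:ℂ) 1,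
  Complex.log (1 - bm a z * (starRingEnd ℂ) (bm a u)) =
    Complex.log (1 - a * (starRingEnd ℂ) a) + Complex.log (1 - z * (starRingEnd ℂ) u) -
      Complex.log (1 - (starRingEnd ℂ) a * z) - Complex.log (1 - a * (starRingEnd ℂ) u)

/-- **HAR2.** (150 lines, hypothesis `S_LOGM`)  The lower bound for the off-diagonal sum of the transformed points.
Proof. `z_t = pt m (σ t)` has modulus `ρ = 1 - 2^(-m)` and argument `θ_t = 2π σ(t)/2^m`. By LOGM the imaginary part of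
`-log (1 - ξ_j conj ξ_l)` is `bk ρ² (θ_j - θ_l) + τ_j - τ_l`, `τ_j = (log (1 - conj a z_j)).im`, and
`|τ_j - τ_l| ≤ 2^k (θ_j - θ_l)` (the derivative of `log (1 - conj a ρ e^{iθ})` in `θ` is at most `1/(1 - |a|) = 2^k` in modulus; or
`arg` estimates). The first part is at least `n (log n - 20)` by `V5helper47.GC.t_HAR` (with `ρ²`, `d = 2π 2^(-m) ≥ (1-ρ²)/2`,
spread `≤ 1`; see `countG` in V5helper73.GC.TAILG for the translation between `Fin n` and `ℕ` sums), the second at least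
`-(2/π) 2^k ∑_{l<j} (θ_j - θ_l)/(j - l) ≥ -(2/π) 2^k n (θ_{n-1} - θ_0) ≥ -(2/π) 2π n` (the estimate
`∑_{l<j} (θ_j - θ_l)/(j-l) ≤ n (θ_{n-1} - θ_0)` is a step in the proof of HAR, see V5helper47/GC/HAR.lean). -/
def S_HAR2 : Prop := ∃ C : ℝ, 0 ≤ C ∧ ∀ k m i : ℕ, k < m → ∀ (n : ℕ) (σ : Fin n → ℕ), StrictMono σ →
  (∀ t, σ t < 2 ^ m ∧ σ t / 2 ^ (m - k) = i) → (∀ t t', 8 * σ t' ≤ 8 * σ t + 2 ^ m) →
  (n : ℝ) * (Real.log n - C) ≤ yb (fun t => bm (pt k i) (pt m (σ t)))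

/-- **MEAN.** (120 lines, hypotheses `S_KT`, `S_TWO`, `S_GEO`)  Integral means and sums over the tree.
Proof. On the arc `2π j/2^m ≤ θ ≤ 2π (j+1)/2^m` the point `z = r e^{iθ}` has `‖bm (pt m j) z‖ ≤ 0.995` (GEO (4)), so
`‖deriv f z‖ ≤ K ‖deriv f (pt m j)‖` (TWO (3), `1 - |z|²` and `1 - |pt|²` are comparable) and
`‖f (pt)‖ ≤ ‖f z‖ + K dd f z ≤ K' ‖f z‖` (TWO (2) with `z, pt` exchanged, and `dd f z · |z| ≤ 4 ‖f z‖`, TWO (1) at the point `0`, `|z| ≥ 1/2`).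
Integrate over the `2^m` arcs. -/
def S_MEAN : Prop := ∀ α β : ℝ, 0 ≤ α → 0 ≤ β → ∃ K : ℝ, 0 ≤ K ∧ ∀ f : ℂ → ℂ, InS f → ∀ (m : ℕ) (r : ℝ), 1 / 2 ≤ r →
  1 - 2 * (1 / 2 : ℝ) ^ m ≤ r → r ≤ 1 - (1 / 2 : ℝ) ^ m →
  (1 / (2 * Real.pi)) * ∫ θ in (0:ℝ)..(2 * Real.pi), ‖deriv f (circleMap 0 r θ)‖ ^ α * ‖f (circleMap 0 r θ)‖ ^ (-β) ≤
    K * (1 / 2 : ℝ) ^ m * ∑ j ∈ Finset.range (2 ^ m), ‖deriv f (pt m j)‖ ^ α * ‖f (pt m j)‖ ^ (-β)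

/-- **KOE.** (80 lines)  The Koebe function: `k'(z) = (1+z)/(1-z)³`.
Proof. For `|θ| ≤ 1 - r` (or `θ ∈ [0, 1-r]`): `|1 - r e^{iθ}| ≤ 2(1-r)`, `|1 + r e^{iθ}| ≥ 1`, so the integrand is at least `(8 (1-r)³)^(-lam)`. -/
def S_KOE : Prop := ∀ lam : ℝ, 0 < lam → ∃ c : ℝ, 0 < c ∧ ∀ r : ℝ, 1 / 2 ≤ r → r < 1 →
  c * (1 - r) ^ (1 - 3 * lam) ≤ (1 / (2 * Real.pi)) * ∫ θ in (0:ℝ)..(2 * Real.pi),
    ‖deriv (fun z : ℂ => z / (1 - z) ^ 2) (circleMap 0 r θ)‖ ^ lam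

/-- **KOS.** (40 lines)  The Koebe function is univalent. -/
def S_KOS : Prop := InS (fun z : ℂ => z / (1 - z) ^ 2)

/-! ### Jones-Makarov type estimate -/

/-- **JMA.** (150 lines)  Counting in a `B`-adic tree.
Proof. `τ = 1/(B-1)`, `ω_t(j) = 1` if the cell of `j` at level `t` is full and `a j t ∈ Mid`, otherwise `1 + τ`. By downward
induction on `t`: for every cell at level `t` (the `j ∈ P` with a given prefix of length `t`)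
`∑_{j in cell} ∏_{t ≤ s < S} ω_s(j) ≤ N (B (1 + τ/2))^(S-t)`: if the cell is full, the children in `Mid` get the weight `1`, the
others (`≤ B/2`) the weight `1+τ`: `≤ B + (B/2) τ`; if not, at most `B - 1` children are nonempty: `(B-1)(1+τ) = B`. Each `j` has at
least `(3/4) S` levels with `ω = 1 + τ`, so `|P| (1+τ)^(3S/4) ≤ N (B (1+τ/2))^S`; and `(1+τ/2)^4 < (1+τ)^3` for `0 < τ ≤ 1`, so
`q = (1+τ/2)/(1+τ)^(3/4) < 1`. -/
def S_JMA : Prop := ∀ B : ℕ, 2 ≤ B → ∃ q : ℝ, 0 < q ∧ q < 1 ∧ ∀ (P : Finset ℕ) (a : ℕ → ℕ → Fin B) (Mid : Finset (Fin B)) (S : ℕ) (N : ℝ),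
  B ≤ 2 * Mid.card → 0 ≤ N →
  (∀ j ∈ P, ((P.filter (fun j' => ∀ s < S, a j' s = a j s)).card : ℝ) ≤ N) →
  (∀ j ∈ P, 4 * ((Finset.range S).filter (fun t => a j t ∈ Mid ∧
      ∀ c : Fin B, ∃ j' ∈ P, (∀ s < t, a j' s = a j s) ∧ a j' t = c)).card ≤ S) →
  (P.card : ℝ) ≤ N * (B * q) ^ S

/-- **JM.** (300 lines, hypotheses `S_AR`, `S_JMA`)  The domain cannot be close to the boundary everywhere at all scales.
Proof. Let `b` be a large multiple of `8` (in terms of `C`, `A`). `P` = the set of the `j` in the filter. Squares `Q` of side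
`s_t = σ b^(-t)` of the `b`-adic grid (inside the squares of side `σ`; at most `K` of these meet the disc of radius `Cσ` about `c`:
treat one of them), `t = 0, ..., S`, `S` maximal with `s_S ≥ 4 ε`. By AR a square of side `s_S` has at most `N = K_b` points.
`B = b²` children, `Mid` = the children with both coordinates in `[b/8, 7b/8)` (`(3b/4)² ≥ b²/2`).
Let `Q ∋ w_j` be full (all its `b²` children contain a point of `P`) of side `s_t`, and `w_j` in a child from `Mid`, so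
`dist (w_j, ∂Q) ≥ s_t/8`. A vertex `u` of the path from `(k,i)` to `(m,j)` with `|w_u - w_j| ≤ s_t/8` is in `Q`, its child contains a
`w_v`, `v ∈ P`, so by `whit` `d_u ≤ C (√2 s_{t+1} + 2ε) ≤ 3 C s_{t+1}`; hence (`b > 3C²`, `σ ≤ C d k i`) it is not the
starting vertex `(k,i)`, the step from it is `≤ 3C² s_{t+1}` (`step`), and the step to it is `≤ 3C³ s_{t+1}` (`parent`, `step`).
So the path (take its part after the last vertex with `|w_u - w_j| > s_t/8`) has at least `b/(48 C³) - 2` vertices with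
`s_t/16 < |w_u - w_j| ≤ s_t/8`. These annuli are disjoint for different `t`, so the number of such `t` is
`≤ (m - k + 1)/(b/(48C³) - 2) ≤ S/4` if `b` is large (`m - k ≤ A (1 + log₂(σ/ε))`, `S ≈ log₂ (σ/(4ε))/log₂ b`; if `σ/ε ≤ K_b` the claim is
trivial by AR). Now JMA gives `|P| ≤ K N (b² q)^S ≤ K (σ/ε)^(2-η)`, `η = log (1/q)/log b`. -/
def S_JM : Prop := ∀ C A : ℝ, 1 ≤ C → 1 ≤ A → ∃ K η : ℝ, 0 < η ∧ η ≤ 1 ∧ ∀ (w : ℕ → ℕ → ℂ) (d : ℕ → ℕ → ℝ), Tree C w d →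
  ∀ k m i : ℕ, k ≤ m → i < 2 ^ k → ∀ (σ ε : ℝ) (c : ℂ), 0 < ε → ε ≤ σ → σ ≤ C * d k i →
    ((m : ℝ) - k) ≤ A * (1 + Real.logb 2 (σ / ε)) →
    (((Finset.range (2 ^ m)).filter (fun j => j / 2 ^ (m - k) = i ∧ ‖w m j - c‖ ≤ C * σ ∧ ε ≤ d m j ∧ d m j ≤ 2 * ε)).card : ℝ) ≤
      K * (σ / ε) ^ (2 - η)

end V5helper73.SZ
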