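import Pool.Agent.V5helper73.GC.TAILG
import Pool.Agent.V5helper73.GC.Stm2
import Pool.Agent.V5helper73.SZ.Stm

/-! # Project SZ: statements that use the class `Sg` (the class `Σ` in disc coordinates) -/

set_option autoImplicit false
open Complex Metric Set Filter Topology MeasureTheory

namespace V5helper73.SZ

open Pool.Agent.W677.Mar V5helper73.GC

/-- **CL1.** (200 lines, hypotheses `S_KT`, `S_TWO`, `S_GEO`, `S_CNT`, `S_HAR2`, `S_SB`; `V5helper73.GC.t_CHAR` is available)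
The sum over the leaves below a vertex with bounded values.
Proof. `a = pt k i`, `g = kt f a ∈ S`, `S_SB` gives `Sg Y H`, `|g'(v)| |v|² = |g(v)|² e^{Re H(v)}`. `ξ_j = bm a (pt m j)`:
`dd f (pt m j)/dd f a = |g'(ξ_j)| (1 - |ξ_j|²)`, `|g(ξ_j)| ≤ R`. `1 - |ξ_j|² = (1-|a|²)(1-|z|²)/|1 - conj a z|²` is at most
`4 · 2^(-(m-k))` and at least `2^(-(m-k))/K` (`|1 - conj a z| ≤ K 2^(-k)` as `j / 2^(m-k) = i`). If `m - k ≤ 3` there are at most `8`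
terms, each at most `K` by TWO (3) (`1 - ‖bm‖` is bounded below). Otherwise `|ξ_j| ≥ 1/2`, so the term is at most
`(K e^{Re H(ξ_j)} 2^(-(m-k)))^lam`. Split `s` into `8` parts `{j / (2^m/8) = q}` (`m ≥ 3`); for each part and each
`Q` in it, ordered by size (`Finset.orderEmbOfFin`), `t_CHAR` for the points `ξ_j` (`∑ -log (1 - |ξ_j|²) ≤ n L`, `L = (m-k) log 2 + K`) and HAR2
(`y = yy = yb` by `rfl`) give the hypothesis of CNT. So `∑ e^{lam Re H(ξ_j)} ≤ K 2^(m-k) + K (1 + L) e^{√(1+lam²) L}`. -/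
def S_CL1 : Prop := ∀ lam R : ℝ, 0 < lam → 0 < R → ∃ K : ℝ, 0 ≤ K ∧ ∀ f : ℂ → ℂ,
  DifferentiableOn ℂ f (ball 0 1) → InjOn f (ball 0 1) → ∀ k m i : ℕ, k ≤ m → i < 2 ^ k → ∀ s : Finset ℕ,
  (∀ j ∈ s, j < 2 ^ m ∧ j / 2 ^ (m - k) = i ∧ ‖f (pt m j) - f (pt k i)‖ ≤ R * dd f (pt k i)) →
    ∑ j ∈ s, (dd f (pt m j) / dd f (pt k i)) ^ lam ≤
      K * (1 + ((m : ℝ) - k)) * 2 ^ (((m : ℝ) - k) * (Real.sqrt (1 + lam ^ 2) - lam))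

/-- **FIN1.** (120 lines, hypotheses `S_TREE`, `S_ATT`, `S_SUMX`, `S_CL1`)  The sum over all leaves.
Proof. `δ = lam`, `α = lam`, `β = 0`. Every leaf is attached (ATT) to an admissible `(k,i)`; for fixed `k`
`∑_i ∑_{j attached to (k,i)} (dd_j)^lam ≤ ∑_i (dd_i)^lam K (1 + m - k) 2^(..)` (CL1 with `R = C/(1 - 2^(-lam))`) and SUMX. -/
def S_FIN1 : Prop := ∀ lam : ℝ, 0 < lam → lam ≤ 2 → ∃ K : ℝ, 0 ≤ K ∧ ∀ f : ℂ → ℂ, InS f → ∀ m : ℕ,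
  ∑ j ∈ Finset.range (2 ^ m), (dd f (pt m j)) ^ lam ≤
    K * ∑ k ∈ Finset.range (m + 1), (1 + ((m : ℝ) - k)) * 2 ^ (((m : ℝ) - k) * (Real.sqrt (1 + lam ^ 2) - lam)) * 4 ^ ((k : ℝ) * lam)

/-- the kernel of the odd transform: the off-diagonal sum -/
noncomputable def y2 {n : ℕ} (s : Fin n → ℂ) : ℝ :=
  (2 / Real.pi) * ∑ j : Fin n, ∑ l : Fin n,
    if l < j then (BB (s j) (s l) - BB (s j) (-s l)).im / ((j : ℝ) - (l : ℝ)) else 0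

/-- **CHAR2.** (250 lines)  The inequality for `n` points for the odd square root transform.
Proof. `F₁ = u g/(u - g) ∈ S`, `G₁(z) = √(F₁(z²))` odd univalent, `Y(z) = z/G₁(z)` even, `Sg Y H`. `S_AREA` (`t_AREA`) for the `2n`
points `s_j, -s_j` with the coefficients `α_j, -α_j`: as in V5helper73/GC/CHAR.lean; `A'_j(z) = A_j(-z)` (`Y` even), so
`A_j - A'_j` is odd, and with `K(z,w) = BB z w - BB z (-w) = 2 ∑_{k odd} (z conj w)^k/k`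
`|∑ α_j α_l (A_j(s_l) - A_j(-s_l))| ≤ ∑ α_j conj α_l K(s_j, s_l)`. Diagonal terms: `A_j(s_j) - A_j(-s_j) = H(s_j) - log Y(s_j)`,
whose exponential is `v F₁'(v)/F₁(v) = v g'(v) u/(g(v) (u - g(v)))`, `v = s_j²`. Then the characters `α_j = e^{ijt}` as in CHAR. -/
def S_CHAR2 : Prop := ∀ g : ℂ → ℂ, InS g → ∀ u : ℂ, (∀ v ∈ ball (0:ℂ) 1, g v ≠ u) → ∃ A : ℂ → ℂ,
  (∀ s ∈ ball (0:ℂ) 1, s ≠ 0 → Complex.exp (A s) * (g (s ^ 2) * (u - g (s ^ 2))) = s ^ 2 * deriv g (s ^ 2) * u) ∧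
  ∀ (n : ℕ) (s : Fin n → ℂ), (∀ j, s j ∈ ball (0:ℂ) 1) → (∀ j, s j ≠ 0) → ∀ lam : ℝ, 0 < lam →
    ‖∑ j, A (s j)‖ ≤ (lam * ((∑ j, Real.log ((1 + ‖s j‖ ^ 2) / (1 - ‖s j‖ ^ 2))) - y2 s) +
      ((∑ j, Real.log ((1 + ‖s j‖ ^ 2) / (1 - ‖s j‖ ^ 2))) + y2 s) / lam) / 2

/-- **HAR3.** (150 lines, hypothesis `S_HAR2`)  The same lower bound for the square roots of the transformed points.
Proof. With `a = pt k i`, `ρ = 1 - 2^(-m)`, `z(θ) = ρ e^{iθ}`, `e = e^{i arg a}` (the angle `2π i/2^k`), `φ = θ - 2π i/2^k ∈ [0, 2π 2^(-k))`, `k ≥ 2`: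
`ξ = bm a z = e (ρ e^{iφ} - |a|)/(1 - |a| ρ e^{iφ})`; put `s(θ) = exp ((log (ρ e^{iφ} - |a|) - log (1 - |a| ρ e^{iφ}) + i arg e)/2)`; the first logarithm
is smooth for `0 ≤ φ < π` (imaginary part `≥ 0`, real part `> 0` at `φ = 0`). The derivative of `log s` in `θ` is at most
`(1/(ρ - |a|) + 2^k)/2 ≤ 2 · 2^k` in modulus (`m ≥ k + 1`). `K(s_j, s_l) = BB(s_j,s_l) - BB(s_j,-s_l) = BB(ξ_j, ξ_l) + 2 log (1 + s_j conj s_l)` and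
`|arg (1 + x)| ≤ |arg x| ≤ K 2^k |θ_j - θ_l|`, summable as in HAR2. -/
def S_HAR3 : Prop := ∃ C : ℝ, 0 ≤ C ∧ ∀ k m i : ℕ, 2 ≤ k → k < m → ∃ s : ℕ → ℂ,
  (∀ j : ℕ, j < 2 ^ m → j / 2 ^ (m - k) = i → s j ^ 2 = bm (pt k i) (pt m j)) ∧
  ∀ (n : ℕ) (σ : Fin n → ℕ), StrictMono σ →
  (∀ t, σ t < 2 ^ m ∧ σ t / 2 ^ (m - k) = i) → (∀ t t', 8 * σ t' ≤ 8 * σ t + 2 ^ m) →
  (n : ℝ) * (Real.log n - C) ≤ y2 (fun t => s (σ t))

end V5helper73.SZ
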