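import Pool.Agent.V5helper73.SZ.StmB

set_option autoImplicit false
open Complex Metric Set Filter Topology MeasureTheory

namespace V5helper73.SZ

/-- the exponent of the leaf sums -/
noncomputable def gam (lam : ℝ) : ℝ := Real.sqrt (1 + lam ^ 2) - lam

/-- `mean |f'|^lam` over the circle of radius `r` -/
noncomputable def mn (lam r : ℝ) (f : ℂ → ℂ) : ℝ :=
  (1 / (2 * Real.pi)) * ∫ θ in (0:ℝ)..(2 * Real.pi), ‖deriv f (circleMap 0 r θ)‖ ^ lam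

/-- the choice of the level -/
theorem exists_level {r : ℝ} (h : 1 / 2 ≤ r) (h1 : r < 1) :
    ∃ m : ℕ, 1 - 2 * (1 / 2 : ℝ) ^ m ≤ r ∧ r ≤ 1 - (1 / 2 : ℝ) ^ m := by
  have h2 : 0 < 1 - r := by linarith
  have hex : ∃ m : ℕ, (1 / 2 : ℝ) ^ m ≤ 1 - r := by
    obtain ⟨n, hn⟩ := exists_pow_lt_of_lt_one h2 (show (1 / 2 : ℝ) < 1 by norm_num)
    exact ⟨n, hn.le⟩
  classical
  refine ⟨Nat.find hex, ?_, ?_⟩
  · rcases Nat.eq_zero_or_pos (Nat.find hex) with h0 | h0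
    · rw [h0]
      norm_num
      linarith
    · have h3 := Nat.find_min hex (Nat.sub_lt h0 one_pos)
      push Not at h3
      have h4 : (1 / 2 : ℝ) ^ Nat.find hex = 1 / 2 * (1 / 2 : ℝ) ^ (Nat.find hex - 1) := by
        conv_lhs => rw [← Nat.sub_add_cancel h0]
        rw [pow_succ]
        ring
      linarith
  · have := Nat.find_spec hex
    linarith

theorem mean_le (h1 : S_FIN1) (h2 : S_MEAN) (h3 : S_GEO) {lam : ℝ} (hl : 0 < lam) (hl2 : lam ≤ 2) :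
    ∃ K : ℝ, 0 ≤ K ∧ ∀ f : ℂ → ℂ, InS f → ∀ r : ℝ, 1 / 2 ≤ r → r < 1 → ∃ m : ℕ,
      1 - 2 * (1 / 2 : ℝ) ^ m ≤ r ∧ r ≤ 1 - (1 / 2 : ℝ) ^ m ∧
      mn lam r f ≤ K * 2 ^ ((m : ℝ) * (lam - 1)) *
        ∑ k ∈ Finset.range (m + 1), (1 + ((m : ℝ) - k)) * 2 ^ (((m : ℝ) - k) * gam lam) * 4 ^ ((k : ℝ) * lam) := by
  obtain ⟨K1, hK1, h1'⟩ := h1 lam hl hl2
  obtain ⟨K2, hK2, h2'⟩ := h2 lam 0 hl.le le_rfl
  refine ⟨K2 * K1, by positivity, fun f hf r hr hr1 => ?_⟩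
  obtain ⟨m, hm1, hm2⟩ := exists_level hr hr1
  refine ⟨m, hm1, hm2, ?_⟩
  have h4 := h2' f hf m r hr hm1 hm2
  simp only [neg_zero, Real.rpow_zero, mul_one] at h4
  have h5 := h1' f hf m
  have h6 : ∑ j ∈ Finset.range (2 ^ m), ‖deriv f (pt m j)‖ ^ lam ≤ 2 ^ ((m : ℝ) * lam) * ∑ j ∈ Finset.range (2 ^ m), (dd f (pt m j)) ^ lam := by
    rw [Finset.mul_sum]
    refine Finset.sum_le_sum fun j _ => ?_
    obtain ⟨hb, hlo, _⟩ := h3.1 m j
    have h7 : ‖deriv f (pt m j)‖ ≤ 2 ^ m * dd f (pt m j) := by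
      unfold dd
      have h8 : (2:ℝ) ^ m * (1 / 2 : ℝ) ^ m = 1 := by
        rw [← mul_pow]
        norm_num
      have h9 : 1 ≤ 2 ^ m * (1 - ‖pt m j‖ ^ 2) := by
        calc (1:ℝ) = 2 ^ m * (1 / 2 : ℝ) ^ m := h8.symm
          _ ≤ _ := mul_le_mul_of_nonneg_left hlo (by positivity)
      calc ‖deriv f (pt m j)‖ = ‖deriv f (pt m j)‖ * 1 := by ring
        _ ≤ ‖deriv f (pt m j)‖ * (2 ^ m * (1 - ‖pt m j‖ ^ 2)) := mul_le_mul_of_nonneg_left h9 (norm_nonneg _)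
        _ = _ := by ring
    have hdd : 0 ≤ dd f (pt m j) := by
      unfold dd
      have : (0:ℝ) < (1 / 2 : ℝ) ^ m := by positivity
      have : 0 ≤ 1 - ‖pt m j‖ ^ 2 := by linarith
      positivity
    calc ‖deriv f (pt m j)‖ ^ lam ≤ (2 ^ m * dd f (pt m j)) ^ lam := Real.rpow_le_rpow (norm_nonneg _) h7 hl.le
      _ = 2 ^ ((m : ℝ) * lam) * (dd f (pt m j)) ^ lam := by
          rw [Real.mul_rpow (by positivity) hdd, ← Real.rpow_natCast, ← Real.rpow_mul (by norm_num)]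
  have h10 : (1 / 2 : ℝ) ^ m * 2 ^ ((m : ℝ) * lam) = 2 ^ ((m : ℝ) * (lam - 1)) := by
    have : (1 / 2 : ℝ) ^ m = 2 ^ (-(m : ℝ)) := by
      rw [Real.rpow_neg (by norm_num), Real.rpow_natCast, one_div, inv_pow]
    rw [this, ← Real.rpow_add (by norm_num)]
    congr 1
    ring
  unfold mn
  have hpw : (0:ℝ) ≤ (1 / 2 : ℝ) ^ m := by positivity
  calc (1 / (2 * Real.pi)) * ∫ θ in (0:ℝ)..(2 * Real.pi), ‖deriv f (circleMap 0 r θ)‖ ^ lam
      ≤ K2 * (1 / 2 : ℝ) ^ m * ∑ j ∈ Finset.range (2 ^ m), ‖deriv f (pt m j)‖ ^ lam := h4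
    _ ≤ K2 * (1 / 2 : ℝ) ^ m * (2 ^ ((m : ℝ) * lam) * ∑ j ∈ Finset.range (2 ^ m), (dd f (pt m j)) ^ lam) :=
        mul_le_mul_of_nonneg_left h6 (by positivity)
    _ = K2 * ((1 / 2 : ℝ) ^ m * 2 ^ ((m : ℝ) * lam)) * ∑ j ∈ Finset.range (2 ^ m), (dd f (pt m j)) ^ lam := by ring
    _ ≤ K2 * ((1 / 2 : ℝ) ^ m * 2 ^ ((m : ℝ) * lam)) * (K1 * ∑ k ∈ Finset.range (m + 1), (1 + ((m : ℝ) - k)) * 2 ^ (((m : ℝ) - k) * gam lam) * 4 ^ ((k : ℝ) * lam)) :=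
        mul_le_mul_of_nonneg_left h5 (by positivity)
    _ = _ := by rw [h10]; ring

/-- a bound for the sum over the levels -/
theorem levels_lt {lam : ℝ} (_hl : 0 < lam) (hg : gam lam < 2 * lam) : ∃ K : ℝ, 0 ≤ K ∧ ∀ m : ℕ,
    ∑ k ∈ Finset.range (m + 1), (1 + ((m : ℝ) - k)) * 2 ^ (((m : ℝ) - k) * gam lam) * 4 ^ ((k : ℝ) * lam) ≤ K * 2 ^ ((m : ℝ) * (2 * lam)) := by
  set q : ℝ := 2 ^ (gam lam - 2 * lam) with hq
  have hq0 : 0 < q := by positivity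
  have hq1 : q < 1 := Real.rpow_lt_one_of_one_lt_of_neg (by norm_num) (by linarith)
  have hs : Summable fun n : ℕ => (1 + (n : ℝ)) * q ^ n := by
    have h1 := summable_pow_mul_geometric_of_norm_lt_one 1 (r := q) (by rw [Real.norm_of_nonneg hq0.le]; exact hq1)
    have h2 := summable_geometric_of_lt_one hq0.le hq1
    refine (h2.add h1).congr fun n => ?_
    simp
    ring
  refine ⟨∑' n : ℕ, (1 + (n : ℝ)) * q ^ n, tsum_nonneg fun n => by positivity, fun m => ?_⟩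
  have h1 : ∀ k ∈ Finset.range (m + 1), (1 + ((m : ℝ) - k)) * 2 ^ (((m : ℝ) - k) * gam lam) * 4 ^ ((k : ℝ) * lam) =
      ((1 + ((m - k : ℕ) : ℝ)) * q ^ (m - k)) * 2 ^ ((m : ℝ) * (2 * lam)) := by
    intro k hk
    have hk' : k ≤ m := by
      have := Finset.mem_range.1 hk
      omega
    rw [Nat.cast_sub hk', hq, ← Real.rpow_natCast, ← Real.rpow_mul (by norm_num), Nat.cast_sub hk']
    have h4 : (4:ℝ) ^ ((k : ℝ) * lam) = 2 ^ ((k : ℝ) * (2 * lam)) := by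
      have : (4:ℝ) = 2 ^ (2:ℝ) := by norm_num
      rw [this, ← Real.rpow_mul (by norm_num)]
      congr 1
      ring
    rw [h4, mul_assoc, mul_assoc, ← Real.rpow_add (by norm_num), ← Real.rpow_add (by norm_num)]
    congr 2
    ring
  rw [Finset.sum_congr rfl h1, ← Finset.sum_mul]
  refine mul_le_mul_of_nonneg_right ?_ (by positivity)
  have h2 : ∑ k ∈ Finset.range (m + 1), (1 + ((m - k : ℕ) : ℝ)) * q ^ (m - k) = ∑ k ∈ Finset.range (m + 1), (1 + (k : ℝ)) * q ^ k := by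
    have := Finset.sum_range_reflect (fun k : ℕ => (1 + (k : ℝ)) * q ^ k) (m + 1)
    rw [← this]
    refine Finset.sum_congr rfl fun k _ => ?_
    simp
  rw [h2]
  exact hs.sum_le_tsum _ fun n _ => by positivity

theorem levels_ge {lam : ℝ} (hg : 2 * lam ≤ gam lam) (m : ℕ) :
    ∑ k ∈ Finset.range (m + 1), (1 + ((m : ℝ) - k)) * 2 ^ (((m : ℝ) - k) * gam lam) * 4 ^ ((k : ℝ) * lam) ≤
      ((m : ℝ) + 1) ^ 2 * 2 ^ ((m : ℝ) * gam lam) := by
  have h1 : ∀ k ∈ Finset.range (m + 1), (1 + ((m : ℝ) - k)) * 2 ^ (((m : ℝ) - k) * gam lam) * 4 ^ ((k : ℝ) * lam) ≤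
      ((m : ℝ) + 1) * 2 ^ ((m : ℝ) * gam lam) := by
    intro k hk
    have hk' : k ≤ m := by
      have := Finset.mem_range.1 hk
      omega
    have hkR : (k : ℝ) ≤ m := by exact_mod_cast hk'
    have h4 : (4:ℝ) ^ ((k : ℝ) * lam) = 2 ^ ((k : ℝ) * (2 * lam)) := by
      have : (4:ℝ) = 2 ^ (2:ℝ) := by norm_num
      rw [this, ← Real.rpow_mul (by norm_num)]
      congr 1
      ring
    rw [h4, mul_assoc, ← Real.rpow_add (by norm_num)]
    have h0 : (0:ℝ) ≤ k := by positivity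
    have h5 : (2:ℝ) ^ (((m : ℝ) - k) * gam lam + (k : ℝ) * (2 * lam)) ≤ 2 ^ ((m : ℝ) * gam lam) := by
      apply Real.rpow_le_rpow_of_exponent_le (by norm_num)
      nlinarith
    apply mul_le_mul (by linarith) h5 (by positivity) (by positivity)
  calc ∑ k ∈ Finset.range (m + 1), (1 + ((m : ℝ) - k)) * 2 ^ (((m : ℝ) - k) * gam lam) * 4 ^ ((k : ℝ) * lam)
      ≤ ∑ _k ∈ Finset.range (m + 1), ((m : ℝ) + 1) * 2 ^ ((m : ℝ) * gam lam) := Finset.sum_le_sum h1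
    _ = _ := by
        rw [Finset.sum_const, Finset.card_range, nsmul_eq_mul]
        push_cast
        ring

theorem two_pow_le {m : ℕ} {r : ℝ} (hr1 : r < 1) (hm1 : 1 - 2 * (1 / 2 : ℝ) ^ m ≤ r) : (2:ℝ) ^ (m : ℝ) ≤ 2 / (1 - r) := by
  have h2 : 0 < 1 - r := by linarith
  rw [Real.rpow_natCast, le_div_iff₀ h2]
  have h8 : (2:ℝ) ^ m * (1 / 2 : ℝ) ^ m = 1 := by
    rw [← mul_pow]
    norm_num
  have h3 : 1 - r ≤ 2 * (1 / 2 : ℝ) ^ m := by linarith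
  calc (2:ℝ) ^ m * (1 - r) ≤ 2 ^ m * (2 * (1 / 2 : ℝ) ^ m) := mul_le_mul_of_nonneg_left h3 (by positivity)
    _ = 2 * ((2:ℝ) ^ m * (1 / 2 : ℝ) ^ m) := by ring
    _ = 2 := by rw [h8, mul_one]

/-- the exact order for `8 lam² > 1` -/
theorem order_gt (h1 : S_FIN1) (h2 : S_MEAN) (h3 : S_GEO) {lam : ℝ} (hl : 0 < lam) (hl2 : lam ≤ 2) (h8 : 1 < 8 * lam ^ 2) :
    ∃ K : ℝ, 0 ≤ K ∧ ∀ f : ℂ → ℂ, InS f → ∀ r : ℝ, 1 / 2 ≤ r → r < 1 → mn lam r f ≤ K * (1 - r) ^ (-(3 * lam - 1)) := by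
  have hg : gam lam < 2 * lam := by
    unfold gam
    have : Real.sqrt (1 + lam ^ 2) < 3 * lam := by
      rw [Real.sqrt_lt' (by positivity)]
      nlinarith
    linarith
  have h3l : 0 < 3 * lam - 1 := by nlinarith
  obtain ⟨K1, hK1, hm⟩ := mean_le h1 h2 h3 hl hl2
  obtain ⟨K2, hK2, hlev⟩ := levels_lt hl hg
  refine ⟨K1 * K2 * 2 ^ (3 * lam - 1), by positivity, fun f hf r hr hr1 => ?_⟩
  obtain ⟨m, hm1, hm2, h4⟩ := hm f hf r hr hr1
  have h5 : 0 < 1 - r := by linarith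
  calc mn lam r f ≤ K1 * 2 ^ ((m : ℝ) * (lam - 1)) * (K2 * 2 ^ ((m : ℝ) * (2 * lam))) :=
        h4.trans (mul_le_mul_of_nonneg_left (hlev m) (by positivity))
    _ = K1 * K2 * (2 ^ (m : ℝ)) ^ (3 * lam - 1) := by
        rw [← Real.rpow_mul (by norm_num)]
        have : (2:ℝ) ^ ((m : ℝ) * (3 * lam - 1)) = 2 ^ ((m : ℝ) * (lam - 1)) * 2 ^ ((m : ℝ) * (2 * lam)) := by
          rw [← Real.rpow_add (by norm_num)]
          congr 1
          ring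
        rw [this]
        ring
    _ ≤ K1 * K2 * (2 / (1 - r)) ^ (3 * lam - 1) := by
        refine mul_le_mul_of_nonneg_left ?_ (by positivity)
        exact Real.rpow_le_rpow (by positivity) (two_pow_le hr1 hm1) h3l.le
    _ = _ := by
        rw [Real.div_rpow (by norm_num) h5.le, Real.rpow_neg h5.le]
        ring

/-- the upper bound for `8 lam² ≤ 1` -/
theorem order_le (h1 : S_FIN1) (h2 : S_MEAN) (h3 : S_GEO) {lam : ℝ} (hl : 0 < lam) (h8 : 8 * lam ^ 2 ≤ 1) :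
    ∃ K : ℝ, 0 ≤ K ∧ ∀ f : ℂ → ℂ, InS f → ∀ r : ℝ, 1 / 2 ≤ r → r < 1 →
      mn lam r f ≤ K * (1 + Real.log (1 / (1 - r))) ^ 2 * (1 - r) ^ (-(Real.sqrt (1 + lam ^ 2) - 1)) := by
  have hg : 2 * lam ≤ gam lam := by
    unfold gam
    have : 3 * lam ≤ Real.sqrt (1 + lam ^ 2) := by
      apply Real.le_sqrt_of_sq_le
      nlinarith
    linarith
  have hl2 : lam ≤ 2 := by nlinarith
  obtain ⟨K1, hK1, hm⟩ := mean_le h1 h2 h3 hl hl2
  have hs1 : 1 ≤ Real.sqrt (1 + lam ^ 2) := by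
    rw [Real.one_le_sqrt]
    nlinarith
  have hB : 0 ≤ Real.sqrt (1 + lam ^ 2) - 1 := by linarith
  refine ⟨K1 * 9 * 2 ^ (Real.sqrt (1 + lam ^ 2) - 1), by positivity, fun f hf r hr hr1 => ?_⟩
  obtain ⟨m, hm1, hm2, h4⟩ := hm f hf r hr hr1
  have h5 : 0 < 1 - r := by linarith
  have hlog0 : 0 ≤ Real.log (1 / (1 - r)) := by
    apply Real.log_nonneg
    rw [le_div_iff₀ h5]
    linarith
  have hmL : (m : ℝ) + 1 ≤ 3 * (1 + Real.log (1 / (1 - r))) := by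
    have h6 := Real.log_le_log (by positivity) (two_pow_le hr1 hm1)
    rw [Real.log_rpow (by norm_num)] at h6
    have h7 : Real.log (2 / (1 - r)) = Real.log 2 + Real.log (1 / (1 - r)) := by
      rw [← Real.log_mul (by norm_num) (by positivity)]
      congr 1
      ring
    rw [h7] at h6
    have h9 := Real.log_two_gt_d9
    have h10 := Real.log_two_lt_d9
    nlinarith
  have h11 : ((m : ℝ) + 1) ^ 2 ≤ 9 * (1 + Real.log (1 / (1 - r))) ^ 2 := by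
    have : 0 ≤ (m : ℝ) + 1 := by positivity
    nlinarith
  calc mn lam r f ≤ K1 * 2 ^ ((m : ℝ) * (lam - 1)) * (((m : ℝ) + 1) ^ 2 * 2 ^ ((m : ℝ) * gam lam)) :=
        h4.trans (mul_le_mul_of_nonneg_left (levels_ge hg m) (by positivity))
    _ = K1 * ((m : ℝ) + 1) ^ 2 * (2 ^ (m : ℝ)) ^ (Real.sqrt (1 + lam ^ 2) - 1) := by
        rw [← Real.rpow_mul (by norm_num)]
        have : (2:ℝ) ^ ((m : ℝ) * (Real.sqrt (1 + lam ^ 2) - 1)) = 2 ^ ((m : ℝ) * (lam - 1)) * 2 ^ ((m : ℝ) * gam lam) := by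
          rw [← Real.rpow_add (by norm_num)]
          congr 1
          unfold gam
          ring
        rw [this]
        ring
    _ ≤ K1 * (9 * (1 + Real.log (1 / (1 - r))) ^ 2) * (2 / (1 - r)) ^ (Real.sqrt (1 + lam ^ 2) - 1) := by
        refine mul_le_mul (mul_le_mul_of_nonneg_left h11 hK1) ?_ (by positivity) (by positivity)
        exact Real.rpow_le_rpow (by positivity) (two_pow_le hr1 hm1) hB
    _ = _ := by
        rw [Real.div_rpow (by norm_num) h5.le, Real.rpow_neg h5.le]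
        ring

end V5helper73.SZ
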