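import Pool.Agent.V5helper73.SZ.F433

set_option autoImplicit false
open Complex Metric Set Filter Topology MeasureTheory

namespace V5helper73.SZ

theorem deriv_ne {f : ℂ → ℂ} (hd : DifferentiableOn ℂ f (ball 0 1)) (hi : InjOn f (ball 0 1)) (h : S_KT) : deriv f 0 ≠ 0 := by
  have h0 : (0:ℂ) ∈ ball (0:ℂ) 1 := mem_ball_self one_pos
  have h1 := (h f hd hi 0 h0).2.1
  unfold dd at h1
  intro h2
  rw [h2] at h1
  simp at h1

/-- normalization -/
theorem normal {f : ℂ → ℂ} (hd : DifferentiableOn ℂ f (ball 0 1)) (hi : InjOn f (ball 0 1)) (h : S_KT) :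
    ∃ g : ℂ → ℂ, InS g ∧ ∀ lam r : ℝ, 0 ≤ r → r < 1 → 0 ≤ lam → mn lam r f = ‖deriv f 0‖ ^ lam * mn lam r g := by
  have h0 : (0:ℂ) ∈ ball (0:ℂ) 1 := mem_ball_self one_pos
  have hne := deriv_ne hd hi h
  refine ⟨fun z => (f z - f 0) / deriv f 0, ⟨(hd.sub_const _).div_const _, ?_, by simp, ?_⟩, ?_⟩
  · intro z hz w hw hzw
    apply hi hz hw
    simp only at hzw
    rw [div_left_inj' hne] at hzw
    linear_combination hzw
  · rw [deriv_div_const, deriv_sub_const, div_self hne]
  · intro lam r hr0 hr1 hl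
    unfold mn
    rw [← mul_assoc, mul_comm (‖deriv f 0‖ ^ lam), mul_assoc]
    congr 1
    rw [← intervalIntegral.integral_const_mul]
    refine intervalIntegral.integral_congr fun θ _ => ?_
    show ‖deriv f (circleMap 0 r θ)‖ ^ lam = ‖deriv f 0‖ ^ lam * ‖deriv (fun z => (f z - f 0) / deriv f 0) (circleMap 0 r θ)‖ ^ lam
    rw [deriv_div_const, deriv_sub_const, norm_div, ← Real.mul_rpow (norm_nonneg _) (by positivity)]
    congr 1
    have : ‖deriv f 0‖ ≠ 0 := norm_ne_zero_iff.2 hne
    field_simp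

theorem mn_nonneg (lam r : ℝ) (f : ℂ → ℂ) : 0 ≤ mn lam r f := by
  unfold mn
  have := Real.pi_pos
  apply mul_nonneg (by positivity)
  apply intervalIntegral.integral_nonneg (by positivity)
  intro θ _
  positivity

/-- the quotient of logarithms -/
noncomputable def qt (lam : ℝ) (f : ℂ → ℂ) (r : ℝ) : EReal :=
  ((Real.log ((mn lam r f) ^ (1 / lam)) / Real.log (1 / (1 - r)) : ℝ) : EReal)

theorem tendsto_x : Tendsto (fun r : ℝ => Real.log (1 / (1 - r))) (𝓝[<] 1) atTop := by
  apply Real.tendsto_log_atTop.comp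
  have h1 : Tendsto (fun r : ℝ => 1 - r) (𝓝[<] 1) (𝓝[>] 0) := by
    apply tendsto_nhdsWithin_iff.2
    constructor
    · have : Tendsto (fun r : ℝ => 1 - r) (𝓝 1) (𝓝 (1 - 1)) := (continuous_const.sub continuous_id).tendsto 1
      rw [sub_self] at this
      exact this.mono_left nhdsWithin_le_nhds
    · filter_upwards [self_mem_nhdsWithin] with r hr
      have : r < 1 := hr
      show 0 < 1 - r
      linarith
  refine (tendsto_inv_nhdsGT_zero.comp h1).congr fun r => ?_
  simp

theorem limsup_le {lam B K : ℝ} (hl : 0 < lam) (hB : 0 ≤ B) {f : ℂ → ℂ}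
    (hf : ∀ r : ℝ, 1 / 2 ≤ r → r < 1 → mn lam r f ≤ K * (1 + Real.log (1 / (1 - r))) ^ 2 * (1 - r) ^ (-B)) :
    Filter.limsup (qt lam f) (𝓝[<] 1) ≤ ((B / lam : ℝ) : EReal) := by
  set K' : ℝ := max K 1 with hK'
  have hK1 : 1 ≤ K' := le_max_right _ _
  set F : ℝ → ℝ := fun x => (1 / lam) * (Real.log K' / x + 2 * (Real.log (1 + x) / x) + B) with hF
  have hFt : Tendsto F atTop (𝓝 (B / lam)) := by
    have h1 : Tendsto (fun x : ℝ => Real.log K' / x) atTop (𝓝 0) := tendsto_const_nhds.div_atTop tendsto_id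
    have h2 : Tendsto (fun x : ℝ => Real.log (1 + x) / x) atTop (𝓝 0) := by
      have h3 : Tendsto (fun x : ℝ => Real.log (1 + x) / (1 + x)) atTop (𝓝 0) := by
        have := (Real.isLittleO_log_id_atTop.tendsto_div_nhds_zero).comp (tendsto_atTop_add_const_left atTop (1:ℝ) tendsto_id)
        exact this
      have h4 : Tendsto (fun x : ℝ => (1 + x) / x) atTop (𝓝 1) := by
        have h5 : Tendsto (fun x : ℝ => 1 / x + 1) atTop (𝓝 (0 + 1)) := (tendsto_const_nhds.div_atTop tendsto_id).add tendsto_const_nhds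
        rw [zero_add] at h5
        refine h5.congr' ?_
        filter_upwards [eventually_gt_atTop 0] with x hx
        field_simp
      have h6 := h3.mul h4
      rw [zero_mul] at h6
      refine h6.congr' ?_
      filter_upwards [eventually_gt_atTop 0] with x hx
      have : 1 + x ≠ 0 := by positivity
      field_simp
    have h7 := ((h1.add (h2.const_mul 2)).add (tendsto_const_nhds (x := B))).const_mul (1 / lam)
    have e : (1 / lam) * (0 + 2 * 0 + B) = B / lam := by ring
    rw [e] at h7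
    exact h7
  have h8 : Tendsto (fun r : ℝ => ((F (Real.log (1 / (1 - r))) : ℝ) : EReal)) (𝓝[<] 1) (𝓝 ((B / lam : ℝ) : EReal)) :=
    (EReal.tendsto_coe.2 (hFt.comp tendsto_x))
  rw [← h8.limsup_eq]
  apply Filter.limsup_le_limsup
  · have h9 : ∀ᶠ r : ℝ in 𝓝[<] 1, 1 / 2 < r := by
      apply nhdsWithin_le_nhds
      exact lt_mem_nhds (by norm_num)
    filter_upwards [h9, self_mem_nhdsWithin, tendsto_x.eventually (eventually_gt_atTop 0)] with r hr hr1 hx
    have hr1' : r < 1 := hr1
    have h5 : 0 < 1 - r := by linarith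
    unfold qt
    rw [EReal.coe_le_coe_iff]
    set x : ℝ := Real.log (1 / (1 - r)) with hxd
    have hx' : (1 - r) ^ (-B) = Real.exp (B * x) := by
      rw [Real.rpow_def_of_pos h5, hxd, one_div, Real.log_inv]
      congr 1
      ring
    have h10 : mn lam r f ≤ K' * (1 + x) ^ 2 * Real.exp (B * x) := by
      have h11 := hf r hr.le hr1'
      rw [hx'] at h11
      refine h11.trans ?_
      have : K ≤ K' := le_max_left _ _
      gcongr
    have h12 : 1 ≤ K' * (1 + x) ^ 2 * Real.exp (B * x) := by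
      have a1 : 1 ≤ (1 + x) ^ 2 := by nlinarith
      have a2 : 1 ≤ Real.exp (B * x) := Real.one_le_exp (by positivity)
      have a3 : 1 ≤ K' * (1 + x) ^ 2 := by nlinarith
      nlinarith
    have h13 : Real.log ((mn lam r f) ^ (1 / lam)) ≤ (1 / lam) * Real.log (K' * (1 + x) ^ 2 * Real.exp (B * x)) := by
      rcases eq_or_lt_of_le (mn_nonneg lam r f) with h | h
      · rw [← h, Real.zero_rpow (by positivity), Real.log_zero]
        have := Real.log_nonneg h12
        positivity
      · rw [Real.log_rpow h]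
        exact mul_le_mul_of_nonneg_left (Real.log_le_log h h10) (by positivity)
    have h14 : Real.log (K' * (1 + x) ^ 2 * Real.exp (B * x)) = Real.log K' + 2 * Real.log (1 + x) + B * x := by
      have a1 : (0:ℝ) < K' := by linarith
      rw [Real.log_mul (by positivity) (by positivity), Real.log_mul (by positivity) (by positivity), Real.log_exp, Real.log_pow]
      push_cast
      ring
    rw [h14] at h13
    rw [div_le_iff₀ hx, hF]
    refine h13.trans (le_of_eq ?_)
    field_simp
  · exact isCobounded_le_of_bot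
  · exact isBounded_le_of_top

theorem le_limsup {lam c : ℝ} (hl : 0 < lam) (hc : 0 < c) {f : ℂ → ℂ}
    (hf : ∀ r : ℝ, 1 / 2 ≤ r → r < 1 → c * (1 - r) ^ (1 - 3 * lam) ≤ mn lam r f) :
    ((3 - 1 / lam : ℝ) : EReal) ≤ Filter.limsup (qt lam f) (𝓝[<] 1) := by
  set F : ℝ → ℝ := fun x => (1 / lam) * (Real.log c / x + (3 * lam - 1)) with hF
  have hFt : Tendsto F atTop (𝓝 (3 - 1 / lam)) := by
    have h1 : Tendsto (fun x : ℝ => Real.log c / x) atTop (𝓝 0) := tendsto_const_nhds.div_atTop tendsto_id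
    have h7 := (h1.add (tendsto_const_nhds (x := 3 * lam - 1))).const_mul (1 / lam)
    have e : (1 / lam) * (0 + (3 * lam - 1)) = 3 - 1 / lam := by field_simp; ring
    rw [e] at h7
    exact h7
  have h8 : Tendsto (fun r : ℝ => ((F (Real.log (1 / (1 - r))) : ℝ) : EReal)) (𝓝[<] 1) (𝓝 ((3 - 1 / lam : ℝ) : EReal)) :=
    (EReal.tendsto_coe.2 (hFt.comp tendsto_x))
  rw [← h8.limsup_eq]
  apply Filter.limsup_le_limsup
  · have h9 : ∀ᶠ r : ℝ in 𝓝[<] 1, 1 / 2 < r := by
      apply nhdsWithin_le_nhds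
      exact lt_mem_nhds (by norm_num)
    filter_upwards [h9, self_mem_nhdsWithin, tendsto_x.eventually (eventually_gt_atTop 0)] with r hr hr1 hx
    have hr1' : r < 1 := hr1
    have h5 : 0 < 1 - r := by linarith
    unfold qt
    rw [EReal.coe_le_coe_iff]
    set x : ℝ := Real.log (1 / (1 - r)) with hxd
    have hx' : (1 - r) ^ (1 - 3 * lam) = Real.exp ((3 * lam - 1) * x) := by
      rw [Real.rpow_def_of_pos h5, hxd, one_div, Real.log_inv]
      congr 1
      ring
    have h10 := hf r hr.le hr1'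
    rw [hx'] at h10
    have h11 : 0 < c * Real.exp ((3 * lam - 1) * x) := by positivity
    have h12 : 0 < mn lam r f := h11.trans_le h10
    rw [Real.log_rpow h12, le_div_iff₀ hx, hF]
    have h13 := Real.log_le_log h11 h10
    rw [Real.log_mul hc.ne' (Real.exp_ne_zero _), Real.log_exp] at h13
    calc (1 / lam) * (Real.log c / x + (3 * lam - 1)) * x = (1 / lam) * (Real.log c + (3 * lam - 1) * x) := by field_simp
      _ ≤ _ := mul_le_mul_of_nonneg_left h13 (by positivity)
  · exact isCobounded_le_of_bot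
  · exact isBounded_le_of_top

end V5helper73.SZ
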