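import Pool.Agent.V5helper73.SZ.SIGM
import Pool.Agent.V5helper86.SZ.TRS
import Pool.Agent.V5helper68.SZ.OMS
import Pool.Agent.V5helper37.GC.HOLD
import Pool.Agent.V5helper37.GC.CAU
import Pool.Agent.V5helper81.GC.AREA2

/-! # Project SZ: the class `Σ`, exponent less than `2/5` at `t = 1` -/

set_option autoImplicit false
open Complex Metric Set Filter Topology MeasureTheory

namespace V5helper73.SZ

open V5helper73.GC Pool.Agent.W677.Mar

/-- The mean of `|ψ'|^t = exp (t Re h)` over the circle of radius `R`. -/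
noncomputable def mn (t R : ℝ) (h : ℂ → ℂ) : ℝ :=
  (1 / (2 * Real.pi)) * ∫ θ in (0:ℝ)..(2 * Real.pi), Real.exp (t * (h (circ R θ)).re)

theorem cm_inv {R : ℝ} (hR : 0 < R) (θ : ℝ) : (circleMap 0 R⁻¹ (2 * Real.pi - θ))⁻¹ = circ R θ := by
  have h1 := hat_circ (h := fun z => z) hR θ
  rwa [hat_ne] at h1
  rw [← norm_pos_iff, norm_cm' (by positivity)]
  positivity

theorem mn_two (R : ℝ) (hR : 1 < R) (ψ h : ℂ → ℂ) (S : IsSig ψ h) : mn 2 R h ≤ 2 * Real.exp (LL R) := by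
  have hR0 : 0 < R := by linarith
  have hR1 : R⁻¹ < 1 := inv_lt_one_of_one_lt₀ hR
  have h1 := V5helper81.GC.t_AREA2 _ _ S.sg R⁻¹ (by positivity) hR1
  have hpi := Real.pi_pos
  have e1 : ∫ θ in (0:ℝ)..(2 * Real.pi), ‖Complex.exp (hat h 0 (circleMap 0 R⁻¹ θ))‖ ^ 2 =
      ∫ θ in (0:ℝ)..(2 * Real.pi), Real.exp (2 * (h (circ R θ)).re) := by
    have h2 := intervalIntegral.integral_comp_sub_left
      (fun θ => ‖Complex.exp (hat h 0 (circleMap 0 R⁻¹ θ))‖ ^ 2) (a := 0) (b := 2 * Real.pi) (2 * Real.pi)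
    rw [sub_self, sub_zero] at h2
    rw [← h2]
    refine intervalIntegral.integral_congr fun θ _ => ?_
    show ‖Complex.exp (hat h 0 (circleMap 0 R⁻¹ (2 * Real.pi - θ)))‖ ^ 2 = Real.exp (2 * (h (circ R θ)).re)
    rw [hat_circ hR0 θ, Complex.norm_exp, ← Real.exp_nat_mul]
    norm_num
  rw [e1] at h1
  unfold mn
  refine h1.trans (le_of_eq ?_)
  have h4 : Real.exp (LL R) = 1 / (1 - (R⁻¹) ^ 2) := by
    rw [← LL_eq hR, Real.exp_neg, Real.exp_log, one_div]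
    have : (R⁻¹) ^ 2 < 1 := by nlinarith [inv_pos.2 hR0]
    linarith
  rw [h4]
  ring

theorem mn_tail : ∀ t : ℝ, 0 ≤ t → ∃ K : ℝ, 0 ≤ K ∧ ∀ R : ℝ, 1 < R → ∀ ψ h : ℂ → ℂ, IsSig ψ h →
    mn t R h ≤ K * (1 + LL R) * Real.exp (LL R * (Real.sqrt (1 + t ^ 2) - 1)) := by
  intro T hT
  obtain ⟨C₀, hC, ht⟩ := tail_ext
  obtain ⟨K, hK0, hK⟩ := V5helper58.GC.t_EXPM T C₀ hT hC
  have hpi := Real.pi_pos
  refine ⟨(1 / (2 * Real.pi)) * K, by positivity, fun R hR ψ h S => ?_⟩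
  have hcont : Continuous fun θ : ℝ => (h (circ R θ)).re := Complex.continuous_re.comp (S.cont hR)
  have h1 := hK (LL R) (fun θ => (h (circ R θ)).re) (LL_pos hR) hcont
    (fun θ => (Complex.abs_re_le_norm _).trans (S.gol hR θ)) (fun x hx0 hx => by
      have h2 := ht R hR ψ h S 0 x hx0 hx
      simp only [Complex.ofReal_zero, zero_mul, neg_zero, Complex.exp_zero, one_mul] at h2
      exact h2)
  unfold mn
  calc (1 / (2 * Real.pi)) * ∫ θ in (0:ℝ)..(2 * Real.pi), Real.exp (T * (h (circ R θ)).re)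
      ≤ (1 / (2 * Real.pi)) * (K * (1 + LL R) * Real.exp (LL R * (Real.sqrt (1 + T ^ 2) - 1))) := by
        exact mul_le_mul_of_nonneg_left h1 (by positivity)
    _ = _ := by ring

/-- the mean at `t = 1` in terms of a function of the class `S` -/
theorem mn_one_eq (hT : S_TRS) (ψ h : ℂ → ℂ) (S : IsSig ψ h) : ∃ f : ℂ → ℂ, InS f ∧ ∀ R : ℝ, 1 < R →
    mn 1 R h = (R⁻¹) ^ 2 * ((1 / (2 * Real.pi)) * ∫ θ in (0:ℝ)..(2 * Real.pi),
      ‖deriv f (circleMap 0 R⁻¹ θ)‖ ^ (1:ℝ) * ‖f (circleMap 0 R⁻¹ θ)‖ ^ (-2 : ℝ)) := by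
  obtain ⟨f, hf, hd⟩ := hT ψ h S
  refine ⟨f, hf, fun R hR => ?_⟩
  have hR0 : 0 < R := by linarith
  have hR1 : R⁻¹ < 1 := inv_lt_one_of_one_lt₀ hR
  have h2 := intervalIntegral.integral_comp_sub_left
      (fun θ => ‖deriv f (circleMap 0 R⁻¹ θ)‖ ^ (1:ℝ) * ‖f (circleMap 0 R⁻¹ θ)‖ ^ (-2 : ℝ)) (a := 0) (b := 2 * Real.pi) (2 * Real.pi)
  rw [sub_self, sub_zero] at h2
  rw [← h2]
  unfold mn
  have h3 : ∫ θ in (0:ℝ)..(2 * Real.pi), Real.exp (1 * (h (circ R θ)).re) =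
      ∫ θ in (0:ℝ)..(2 * Real.pi), (R⁻¹) ^ 2 * (‖deriv f (circleMap 0 R⁻¹ (2 * Real.pi - θ))‖ ^ (1:ℝ) *
        ‖f (circleMap 0 R⁻¹ (2 * Real.pi - θ))‖ ^ (-2 : ℝ)) := by
    refine intervalIntegral.integral_congr fun θ _ => ?_
    show Real.exp (1 * (h (circ R θ)).re) = (R⁻¹) ^ 2 * (‖deriv f (circleMap 0 R⁻¹ (2 * Real.pi - θ))‖ ^ (1:ℝ) *
        ‖f (circleMap 0 R⁻¹ (2 * Real.pi - θ))‖ ^ (-2 : ℝ))
    have h4 : ‖circleMap 0 R⁻¹ (2 * Real.pi - θ)‖ = R⁻¹ := norm_cm' (by positivity) _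
    have h5 := hd (circleMap 0 R⁻¹ (2 * Real.pi - θ)) (by
      rw [← norm_pos_iff, h4]; positivity) (by rw [h4]; exact hR1)
    rw [cm_inv hR0, h4, ← S.2.2.2.2.1 _ (by rw [norm_circ hR0.le]; exact hR), Complex.norm_exp] at h5
    rw [one_mul, h5, Real.rpow_one]
    ring
  rw [h3, intervalIntegral.integral_const_mul]
  ring

theorem mn_one (hT : S_TRS) (hS : S_SIGM) : ∃ K η : ℝ, 0 ≤ K ∧ 0 < η ∧ η ≤ 1 / 100 ∧ ∀ R : ℝ, 1 < R → ∀ ψ h : ℂ → ℂ, IsSig ψ h →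
    mn 1 R h ≤ K * Real.exp (LL R * (2 / 5 - η)) := by
  obtain ⟨K, η, hK, hη, hη', hm⟩ := hS
  refine ⟨2 * K + 2, η, by positivity, hη, hη', fun R hR ψ h S => ?_⟩
  have hR0 : 0 < R := by linarith
  have hR1 : R⁻¹ < 1 := inv_lt_one_of_one_lt₀ hR
  have hLp := LL_pos hR
  have hE1 : 1 ≤ Real.exp (LL R * (2 / 5 - η)) := Real.one_le_exp (by apply mul_nonneg hLp.le; linarith)
  have hpi := Real.pi_pos
  rcases le_or_gt R 2 with h2 | h2
  · obtain ⟨f, hf, he⟩ := mn_one_eq hT ψ h S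
    rw [he R hR]
    have h3 : 1 / 2 ≤ R⁻¹ := by
      rw [one_div]
      exact inv_anti₀ hR0 h2
    have h4 := hm f hf R⁻¹ h3 hR1
    have h5 : 0 ≤ (1 / (2 * Real.pi)) * ∫ θ in (0:ℝ)..(2 * Real.pi),
        ‖deriv f (circleMap 0 R⁻¹ θ)‖ ^ (1:ℝ) * ‖f (circleMap 0 R⁻¹ θ)‖ ^ (-2 : ℝ) := by
      apply mul_nonneg (by positivity)
      apply intervalIntegral.integral_nonneg (by positivity)
      intro θ _
      positivity
    have h6 : (R⁻¹) ^ 2 ≤ 1 := pow_le_one₀ (by positivity) hR1.le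
    have h7 : (1 - R⁻¹) ^ (-(2 / 5 - η)) ≤ 2 * Real.exp (LL R * (2 / 5 - η)) := by
      have h8 : 1 - R⁻¹ = (R ^ 2 / (R ^ 2 - 1))⁻¹ * (1 + R⁻¹)⁻¹ := by
        have : R ^ 2 - 1 ≠ 0 := by nlinarith
        have : R + 1 ≠ 0 := by linarith
        field_simp
        ring
      have h9 : 0 < R ^ 2 / (R ^ 2 - 1) := by
        have : 0 < R ^ 2 - 1 := by nlinarith
        positivity
      have h10 : (1:ℝ) / 2 ≤ (1 + R⁻¹)⁻¹ := by
        rw [one_div]
        apply inv_anti₀ (by positivity)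
        linarith
      rw [h8, Real.mul_rpow (by positivity) (by positivity)]
      have h11 : ((R ^ 2 / (R ^ 2 - 1))⁻¹) ^ (-(2 / 5 - η)) = Real.exp (LL R * (2 / 5 - η)) := by
        rw [Real.inv_rpow h9.le, ← Real.rpow_neg h9.le, neg_neg, Real.rpow_def_of_pos h9]
        rfl
      have h12 : ((1 + R⁻¹)⁻¹) ^ (-(2 / 5 - η)) ≤ 2 := by
        calc ((1 + R⁻¹)⁻¹) ^ (-(2 / 5 - η)) ≤ (1 / 2 : ℝ) ^ (-(2 / 5 - η)) :=
              Real.rpow_le_rpow_of_nonpos (by norm_num) h10 (by linarith)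
          _ ≤ (1 / 2 : ℝ) ^ (-1 : ℝ) := Real.rpow_le_rpow_of_exponent_ge (by norm_num) (by norm_num) (by linarith)
          _ = 2 := by rw [Real.rpow_neg_one]; norm_num
      rw [h11, mul_comm]
      exact mul_le_mul_of_nonneg_right h12 (Real.exp_pos _).le
    calc _ ≤ 1 * ((1 / (2 * Real.pi)) * ∫ θ in (0:ℝ)..(2 * Real.pi),
        ‖deriv f (circleMap 0 R⁻¹ θ)‖ ^ (1:ℝ) * ‖f (circleMap 0 R⁻¹ θ)‖ ^ (-2 : ℝ)) := mul_le_mul_of_nonneg_right h6 h5
      _ ≤ K * (1 - R⁻¹) ^ (-(2 / 5 - η)) := by rw [one_mul]; exact h4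
      _ ≤ K * (2 * Real.exp (LL R * (2 / 5 - η))) := mul_le_mul_of_nonneg_left h7 hK
      _ ≤ (2 * K + 2) * Real.exp (LL R * (2 / 5 - η)) := by nlinarith
  · have h3 := mn_two R hR ψ h S
    have h4 : Real.exp (LL R) ≤ 4 / 3 := by
      have h9 : 0 < R ^ 2 - 1 := by nlinarith
      unfold LL
      rw [Real.exp_log (by positivity), div_le_div_iff₀ h9 (by norm_num)]
      nlinarith
    have hcont : Continuous fun θ : ℝ => (h (circ R θ)).re := Complex.continuous_re.comp (S.cont hR)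
    have h5 : mn 1 R h ≤ 1 / 2 + mn 2 R h / 2 := by
      unfold mn
      have h6 : ∫ θ in (0:ℝ)..(2 * Real.pi), Real.exp (1 * (h (circ R θ)).re) ≤
          ∫ θ in (0:ℝ)..(2 * Real.pi), (1 / 2 + (1 / 2) * Real.exp (2 * (h (circ R θ)).re)) := by
        apply intervalIntegral.integral_mono_on (by positivity)
        · apply Continuous.intervalIntegrable; fun_prop
        · apply Continuous.intervalIntegrable; fun_prop
        · intro θ _
          have h7 : Real.exp (2 * (h (circ R θ)).re) = Real.exp (1 * (h (circ R θ)).re) ^ 2 := by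
            rw [← Real.exp_nat_mul]; norm_num
          rw [h7]
          nlinarith [sq_nonneg (Real.exp (1 * (h (circ R θ)).re) - 1)]
      rw [intervalIntegral.integral_add (by simp) (by apply Continuous.intervalIntegrable; fun_prop),
        intervalIntegral.integral_const, intervalIntegral.integral_const_mul] at h6
      have h8 := mul_le_mul_of_nonneg_left h6 (by positivity : 0 ≤ 1 / (2 * Real.pi))
      refine h8.trans (le_of_eq ?_)
      simp only [sub_zero, smul_eq_mul]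
      field_simp
    nlinarith

end V5helper73.SZ
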