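import Pool.Agent.V5helper73.SZ.SIG1

/-! # Project SZ: Hölder's inequality and the Laurent coefficients -/

set_option autoImplicit false
open Complex Metric Set Filter Topology MeasureTheory

namespace V5helper73.SZ

open V5helper73.GC Pool.Agent.W677.Mar

theorem mn_nonneg (t R : ℝ) (h : ℂ → ℂ) : 0 ≤ mn t R h := by
  unfold mn
  have hpi := Real.pi_pos
  apply mul_nonneg (by positivity)
  exact intervalIntegral.integral_nonneg (by positivity) fun θ _ => (Real.exp_pos _).le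

theorem mn_hold {ψ h : ℂ → ℂ} (S : IsSig ψ h) {R : ℝ} (hR : 1 < R) (α β w : ℝ) (hw0 : 0 ≤ w) (hw1 : w ≤ 1) :
    mn ((1 - w) * α + w * β) R h ≤ (mn α R h) ^ (1 - w) * (mn β R h) ^ w := by
  have hpi := Real.pi_pos
  have hcont : Continuous fun θ : ℝ => (h (circ R θ)).re := Complex.continuous_re.comp (S.cont hR)
  have h1 := V5helper37.GC.t_HOLD (fun θ => (h (circ R θ)).re) hcont α β w hw0 hw1
  have hi1 : 0 ≤ ∫ θ in (0:ℝ)..(2 * Real.pi), Real.exp (α * (h (circ R θ)).re) :=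
    intervalIntegral.integral_nonneg (by positivity) fun θ _ => (Real.exp_pos _).le
  have hi2 : 0 ≤ ∫ θ in (0:ℝ)..(2 * Real.pi), Real.exp (β * (h (circ R θ)).re) :=
    intervalIntegral.integral_nonneg (by positivity) fun θ _ => (Real.exp_pos _).le
  unfold mn
  have h2 : (1 / (2 * Real.pi)) = (1 / (2 * Real.pi)) ^ (1 - w) * (1 / (2 * Real.pi)) ^ w := by
    rw [← Real.rpow_add (by positivity)]
    simp
  calc (1 / (2 * Real.pi)) * ∫ θ in (0:ℝ)..(2 * Real.pi), Real.exp (((1 - w) * α + w * β) * (h (circ R θ)).re)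
      ≤ (1 / (2 * Real.pi)) * ((∫ θ in (0:ℝ)..(2 * Real.pi), Real.exp (α * (h (circ R θ)).re)) ^ (1 - w) *
          (∫ θ in (0:ℝ)..(2 * Real.pi), Real.exp (β * (h (circ R θ)).re)) ^ w) := mul_le_mul_of_nonneg_left h1 (by positivity)
    _ = ((1 / (2 * Real.pi)) ^ (1 - w) * (1 / (2 * Real.pi)) ^ w) * ((∫ θ in (0:ℝ)..(2 * Real.pi), Real.exp (α * (h (circ R θ)).re)) ^ (1 - w) *
          (∫ θ in (0:ℝ)..(2 * Real.pi), Real.exp (β * (h (circ R θ)).re)) ^ w) := by rw [← h2]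
    _ = _ := by
        rw [Real.mul_rpow (by positivity) hi1, Real.mul_rpow (by positivity) hi2]
        ring

theorem mn_interp {ψ h : ℂ → ℂ} (S : IsSig ψ h) {R : ℝ} (hR : 1 < R) (α β w A B a b L : ℝ) (hw0 : 0 ≤ w) (hw1 : w ≤ 1)
    (hA : 0 ≤ A) (hB : 0 ≤ B) (h1 : mn α R h ≤ A * Real.exp (L * a)) (h2 : mn β R h ≤ B * Real.exp (L * b)) :
    mn ((1 - w) * α + w * β) R h ≤ A ^ (1 - w) * B ^ w * Real.exp (L * ((1 - w) * a + w * b)) := by
  calc mn ((1 - w) * α + w * β) R h ≤ (mn α R h) ^ (1 - w) * (mn β R h) ^ w := mn_hold S hR α β w hw0 hw1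
    _ ≤ (A * Real.exp (L * a)) ^ (1 - w) * (B * Real.exp (L * b)) ^ w := by
        apply mul_le_mul (Real.rpow_le_rpow (mn_nonneg _ _ _) h1 (by linarith)) (Real.rpow_le_rpow (mn_nonneg _ _ _) h2 hw0)
          (Real.rpow_nonneg (mn_nonneg _ _ _) _) (by positivity)
    _ = _ := by
        rw [Real.mul_rpow hA (Real.exp_pos _).le, Real.mul_rpow hB (Real.exp_pos _).le, ← Real.exp_mul, ← Real.exp_mul]
        have : Real.exp (L * ((1 - w) * a + w * b)) = Real.exp (L * a * (1 - w)) * Real.exp (L * b * w) := by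
          rw [← Real.exp_add]
          congr 1
          ring
        rw [this]
        ring

/-- all `t` between `3/4` and `2` -/
theorem mn_all (hT : S_TRS) (hS : S_SIGM) : ∃ η : ℝ, 0 < η ∧ (∀ t : ℝ, 3 / 4 < t → t ≤ 2 → ∃ K : ℝ, ∀ R : ℝ, 1 < R →
    ∀ ψ h : ℂ → ℂ, IsSig ψ h → mn t R h ≤ K * Real.exp (LL R * ((3 * t - 1) / 5 - η * min (4 * t - 3) (2 - t)))) ∧
    ∃ K : ℝ, 0 ≤ K ∧ ∀ R : ℝ, 1 < R → ∀ ψ h : ℂ → ℂ, IsSig ψ h → mn 1 R h ≤ K * Real.exp (LL R * (2 / 5 - η)) := by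
  obtain ⟨K₁, η, hK₁, hη, hη', h1⟩ := mn_one hT hS
  refine ⟨η / 2, by positivity, ?_, K₁, hK₁, fun R hR ψ h S => ?_⟩
  · intro t ht ht2
    rcases le_or_gt 1 t with h1t | h1t
    · refine ⟨K₁ ^ (1 - (t - 1)) * 2 ^ (t - 1), fun R hR ψ h S => ?_⟩
      have hL := LL_pos hR
      have h2 := mn_interp S hR 1 2 (t - 1) K₁ 2 (2 / 5 - η) 1 (LL R) (by linarith) (by linarith) hK₁ (by norm_num)
        (h1 R hR ψ h S) (by rw [mul_one]; exact mn_two R hR ψ h S)
      have e1 : (1 - (t - 1)) * 1 + (t - 1) * 2 = t := by ring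
      rw [e1] at h2
      refine h2.trans ?_
      apply mul_le_mul_of_nonneg_left _ (by positivity)
      apply Real.exp_le_exp.2
      apply mul_le_mul_of_nonneg_left _ hL.le
      have h3 : min (4 * t - 3) (2 - t) ≤ 2 - t := min_le_right _ _
      nlinarith
    · obtain ⟨K₂, hK₂, h2⟩ := mn_tail (3 / 4) (by norm_num)
      have hs : Real.sqrt (1 + (3 / 4) ^ 2) = 5 / 4 := by
        rw [show (1:ℝ) + (3 / 4) ^ 2 = (5 / 4) ^ 2 by norm_num, Real.sqrt_sq (by norm_num)]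
      rw [hs] at h2
      set w : ℝ := 4 * t - 3 with hw
      have hw0 : 0 < w := by rw [hw]; linarith
      have hw1 : w < 1 := by rw [hw]; linarith
      set c : ℝ := η * w / 2 with hc
      have hc0 : 0 < c := by positivity
      have hc1 : c ≤ 1 := by rw [hc]; nlinarith
      refine ⟨(K₂ + 1) * c⁻¹ * K₁ ^ w, fun R hR ψ h S => ?_⟩
      have hL := LL_pos hR
      have h3 := mn_interp S hR (3 / 4) 1 w (K₂ * (1 + LL R)) K₁ (5 / 4 - 1) (2 / 5 - η) (LL R) hw0.le hw1.le (by positivity) hK₁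
        (h2 R hR ψ h S) (h1 R hR ψ h S)
      have e1 : (1 - w) * (3 / 4) + w * 1 = t := by rw [hw]; ring
      rw [e1] at h3
      refine h3.trans ?_
      have h4 : (K₂ * (1 + LL R)) ^ (1 - w) ≤ (K₂ + 1) * c⁻¹ * Real.exp (LL R * c) := by
        have h5 : K₂ * (1 + LL R) ≤ (K₂ + 1) * (1 + LL R) := by nlinarith
        have h6 : 1 ≤ (K₂ + 1) * (1 + LL R) := by nlinarith
        have h7 : 1 + LL R ≤ c⁻¹ * Real.exp (LL R * c) := by
          rw [← div_eq_inv_mul, le_div_iff₀ hc0]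
          have h8 := Real.add_one_le_exp (LL R * c)
          nlinarith
        calc (K₂ * (1 + LL R)) ^ (1 - w) ≤ ((K₂ + 1) * (1 + LL R)) ^ (1 - w) :=
              Real.rpow_le_rpow (by positivity) h5 (by linarith)
          _ ≤ ((K₂ + 1) * (1 + LL R)) ^ (1:ℝ) := Real.rpow_le_rpow_of_exponent_le h6 (by linarith)
          _ = (K₂ + 1) * (1 + LL R) := Real.rpow_one _
          _ ≤ (K₂ + 1) * (c⁻¹ * Real.exp (LL R * c)) := mul_le_mul_of_nonneg_left h7 (by positivity)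
          _ = _ := by ring
      have h9 : Real.exp (LL R * c) * Real.exp (LL R * ((1 - w) * (5 / 4 - 1) + w * (2 / 5 - η))) ≤
          Real.exp (LL R * ((3 * t - 1) / 5 - η / 2 * min w (2 - t))) := by
        rw [← Real.exp_add, ← mul_add]
        apply Real.exp_le_exp.2
        apply mul_le_mul_of_nonneg_left _ hL.le
        have h3 : min w (2 - t) ≤ w := min_le_left _ _
        have h10 : (1 - w) * (5 / 4 - 1) + w * (2 / 5) = (3 * t - 1) / 5 := by rw [hw]; ring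
        have h11 : η / 2 * min w (2 - t) ≤ η / 2 * w := mul_le_mul_of_nonneg_left h3 (by positivity)
        rw [hc]
        linarith
      calc (K₂ * (1 + LL R)) ^ (1 - w) * K₁ ^ w * Real.exp (LL R * ((1 - w) * (5 / 4 - 1) + w * (2 / 5 - η)))
          ≤ ((K₂ + 1) * c⁻¹ * Real.exp (LL R * c)) * K₁ ^ w * Real.exp (LL R * ((1 - w) * (5 / 4 - 1) + w * (2 / 5 - η))) := by
            gcongr
        _ = ((K₂ + 1) * c⁻¹ * K₁ ^ w) * (Real.exp (LL R * c) * Real.exp (LL R * ((1 - w) * (5 / 4 - 1) + w * (2 / 5 - η)))) := by ring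
        _ ≤ _ := mul_le_mul_of_nonneg_left h9 (by positivity)
  · refine (h1 R hR ψ h S).trans ?_
    apply mul_le_mul_of_nonneg_left _ hK₁
    apply Real.exp_le_exp.2
    apply mul_le_mul_of_nonneg_left _ (LL_pos hR).le
    linarith

end V5helper73.SZ
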