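import Pool.Agent.V5helper73.SZ.SIG2

/-! # Project SZ: the Laurent coefficients -/

set_option autoImplicit false
open Complex Metric Set Filter Topology MeasureTheory

namespace V5helper73.SZ

open V5helper73.GC Pool.Agent.W677.Mar

/-- the sum of a power series in the unit ball -/
theorem hasF {b : ℕ → ℂ} {G : ℂ → ℂ} (h : ∀ v ∈ ball (0:ℂ) 1, HasSum (fun n : ℕ => b n * v ^ n) (G v)) :
    HasFPowerSeriesOnBall G (FormalMultilinearSeries.ofScalars ℂ b) 0 1 := by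
  refine ⟨?_, by norm_num, ?_⟩
  · apply ENNReal.le_of_forall_nnreal_lt
    intro r hr
    have hr1 : (r : ℝ) < 1 := by exact_mod_cast hr
    have h1 := (h ((r : ℝ) : ℂ) (by
      rw [mem_ball_zero_iff, Complex.norm_real, Real.norm_of_nonneg r.coe_nonneg]
      exact hr1)).summable.tendsto_atTop_zero
    apply FormalMultilinearSeries.le_radius_of_tendsto (l := 0)
    have h2 := h1.norm
    rw [norm_zero] at h2
    refine h2.congr fun n => ?_
    rw [norm_mul, norm_pow, Complex.norm_real, Real.norm_of_nonneg r.coe_nonneg]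
    congr 1
    exact (FormalMultilinearSeries.ofScalars_norm ..).symm
  · intro y hy
    have hy' : y ∈ ball (0:ℂ) 1 := by
      rw [mem_ball_zero_iff]
      have : ‖y‖ₑ < 1 := by simpa [Metric.mem_eball, edist_zero_right] using hy
      rwa [← ofReal_norm, ENNReal.ofReal_lt_one] at this
    have h1 := h y hy'
    rw [zero_add]
    have h2 : (fun n : ℕ => b n * y ^ n) = fun n => FormalMultilinearSeries.ofScalars ℂ b n (fun _ => y) := by
      funext n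
      rw [FormalMultilinearSeries.ofScalars_apply_eq, smul_eq_mul]
    rw [h2] at h1
    exact h1

/-- Laurent coefficients and the mean of the modulus of the derivative -/
theorem coeff_le {ψ h : ℂ → ℂ} (S : IsSig ψ h) {b : ℕ → ℂ}
    (hb : ∀ z : ℂ, 1 < ‖z‖ → HasSum (fun n : ℕ => b n * (z⁻¹) ^ n) (ψ z - z)) {n : ℕ} (hn : 1 ≤ n) {s : ℝ} (h0 : 0 < s) (h1 : s < 1) :
    n * ‖b n‖ * s ^ (n - 1) ≤ (s⁻¹) ^ 2 * (1 + mn 1 s⁻¹ h) := by
  obtain ⟨n, rfl⟩ : ∃ k, n = k + 1 := ⟨n - 1, by omega⟩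
  rw [Nat.add_sub_cancel]
  have hpi := Real.pi_pos
  set G : ℂ → ℂ := hat (fun z => ψ z - z) (b 0) with hG
  have hs : ∀ v ∈ ball (0:ℂ) 1, HasSum (fun n : ℕ => b n * v ^ n) (G v) := by
    intro v hv
    by_cases hv0 : v = 0
    · rw [hv0, hG, hat_zero]
      convert hasSum_single (f := fun n : ℕ => b n * (0:ℂ) ^ n) 0 ?_ using 1
      · simp
      · intro m hm
        simp [hm]
    · rw [hG, hat_ne _ _ hv0]
      have := hb v⁻¹ (inv_ext hv hv0)
      rwa [inv_inv] at this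
  have hF := hasF hs
  have hGd : DifferentiableOn ℂ G (ball 0 1) := by
    have := hF.differentiableOn
    rwa [show Metric.eball (0:ℂ) 1 = ball 0 1 by rw [← ENNReal.ofReal_one, Metric.eball_ofReal]] at this
  have hGdd : DifferentiableOn ℂ (deriv G) (ball 0 1) := hGd.deriv isOpen_ball
  have hc := V5helper37.GC.t_CAU (deriv G) hGdd n s h0 h1
  have hbn : ((n.factorial : ℂ)⁻¹ * iteratedDeriv n (deriv G) 0) = (n + 1 : ℕ) * b (n + 1) := by
    rw [← iteratedDeriv_succ', iteratedDeriv_eq_iteratedFDeriv]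
    have h2 := hF.factorial_smul (1 : ℂ) (n + 1)
    rw [← h2, FormalMultilinearSeries.ofScalars_apply_eq, one_pow, smul_eq_mul, mul_one, nsmul_eq_mul, Nat.factorial_succ]
    have h5 : (n.factorial : ℂ) ≠ 0 := by exact_mod_cast n.factorial_ne_zero
    push_cast
    field_simp
  rw [hbn, norm_mul, Complex.norm_natCast] at hc
  refine hc.trans ?_
  have hder : ∀ v ∈ ball (0:ℂ) 1, v ≠ 0 → ‖deriv G v‖ ≤ (‖v‖⁻¹) ^ 2 * (1 + ‖deriv ψ v⁻¹‖) := by
    intro v hv hv0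
    have e1 : HasDerivAt ψ (deriv ψ v⁻¹) v⁻¹ :=
      (S.1.differentiableAt ((isOpen_lt continuous_const continuous_norm).mem_nhds (inv_ext hv hv0))).hasDerivAt
    have e2 : HasDerivAt (fun v : ℂ => ψ v⁻¹ - v⁻¹) (deriv ψ v⁻¹ * -(v ^ 2)⁻¹ - -(v ^ 2)⁻¹) v :=
      (e1.comp v (hasDerivAt_inv hv0)).sub (hasDerivAt_inv hv0)
    have e3 : G =ᶠ[𝓝 v] fun v : ℂ => ψ v⁻¹ - v⁻¹ := by
      filter_upwards [isOpen_ne.mem_nhds hv0] with u hu
      rw [hG, hat_ne _ _ hu]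
    rw [(e2.congr_of_eventuallyEq e3).deriv]
    have e4 : deriv ψ v⁻¹ * -(v ^ 2)⁻¹ - -(v ^ 2)⁻¹ = (v⁻¹) ^ 2 * (1 - deriv ψ v⁻¹) := by
      rw [inv_pow]; ring
    rw [e4, norm_mul, norm_pow, norm_inv]
    apply mul_le_mul_of_nonneg_left _ (by positivity)
    calc ‖1 - deriv ψ v⁻¹‖ ≤ ‖(1:ℂ)‖ + ‖deriv ψ v⁻¹‖ := norm_sub_le _ _
      _ = _ := by rw [norm_one]
  have hns : ∀ θ : ℝ, ‖circleMap 0 s θ‖ = s := fun θ => norm_cm' h0 θ
  have hR : 1 < s⁻¹ := (one_lt_inv₀ h0).2 h1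
  have hmn : mn 1 s⁻¹ h = (1 / (2 * Real.pi)) * ∫ θ in (0:ℝ)..(2 * Real.pi), ‖Complex.exp (hat h 0 (circleMap 0 s θ))‖ := by
    have h2 := intervalIntegral.integral_comp_sub_left
      (fun θ => ‖Complex.exp (hat h 0 (circleMap 0 s θ))‖) (a := 0) (b := 2 * Real.pi) (2 * Real.pi)
    rw [sub_self, sub_zero] at h2
    rw [← h2]
    unfold mn
    congr 1
    refine intervalIntegral.integral_congr fun θ _ => ?_
    show Real.exp (1 * (h (circ s⁻¹ θ)).re) = ‖Complex.exp (hat h 0 (circleMap 0 s (2 * Real.pi - θ)))‖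
    have h3 := hat_circ (h := h) (R := s⁻¹) (by positivity) θ
    rw [inv_inv] at h3
    rw [h3, Complex.norm_exp, one_mul]
  have hcG : Continuous fun θ : ℝ => ‖deriv G (circleMap 0 s θ)‖ := by
    apply Continuous.norm
    apply hGdd.continuousOn.comp_continuous (continuous_circleMap 0 s)
    intro θ
    rw [mem_ball_zero_iff, hns]
    exact h1
  have hcH : Continuous fun θ : ℝ => ‖Complex.exp (hat h 0 (circleMap 0 s θ))‖ := by
    have hH : DifferentiableOn ℂ (hat h 0) (ball 0 1) := S.sg.dH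
    have : Continuous fun θ : ℝ => hat h 0 (circleMap 0 s θ) := by
      apply hH.continuousOn.comp_continuous (continuous_circleMap 0 s)
      intro θ
      rw [mem_ball_zero_iff, hns]
      exact h1
    fun_prop
  have h6 : ∫ θ in (0:ℝ)..(2 * Real.pi), ‖deriv G (circleMap 0 s θ)‖ ≤
      ∫ θ in (0:ℝ)..(2 * Real.pi), (s⁻¹) ^ 2 * (1 + ‖Complex.exp (hat h 0 (circleMap 0 s θ))‖) := by
    apply intervalIntegral.integral_mono_on (by positivity)
    · exact hcG.intervalIntegrable _ _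
    · apply Continuous.intervalIntegrable; fun_prop
    · intro θ _
      have hv : circleMap 0 s θ ∈ ball (0:ℂ) 1 := by rw [mem_ball_zero_iff, hns]; exact h1
      have hv0 : circleMap 0 s θ ≠ 0 := by rw [← norm_pos_iff, hns]; exact h0
      have h7 := hder _ hv hv0
      rw [hns, ← S.2.2.2.2.1 _ (inv_ext hv hv0), ← hat_ne h 0 hv0] at h7
      exact h7
  have h8 := mul_le_mul_of_nonneg_left h6 (by positivity : 0 ≤ 1 / (2 * Real.pi))
  refine h8.trans (le_of_eq ?_)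
  rw [hmn, intervalIntegral.integral_const_mul, intervalIntegral.integral_add (by simp) (hcH.intervalIntegrable _ _),
    intervalIntegral.integral_const]
  simp only [sub_zero, smul_eq_mul]
  field_simp

theorem coeff_bound {η K : ℝ} (hη : 0 < η) (hη' : η ≤ 1 / 100) (hK : 0 ≤ K)
    (hm : ∀ R : ℝ, 1 < R → ∀ ψ h : ℂ → ℂ, IsSig ψ h → mn 1 R h ≤ K * Real.exp (LL R * (2 / 5 - η)))
    {ψ h : ℂ → ℂ} (S : IsSig ψ h) {b : ℕ → ℂ}
    (hb : ∀ z : ℂ, 1 < ‖z‖ → HasSum (fun n : ℕ => b n * (z⁻¹) ^ n) (ψ z - z)) {n : ℕ} (hn : 1 ≤ n) :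
    ‖b n‖ ≤ 8 * (1 + 2 * K) * (n : ℝ) ^ (-(3 / 5) - η) := by
  have hn1 : (1:ℝ) ≤ n := by exact_mod_cast hn
  set s : ℝ := 1 - 1 / (2 * n) with hs
  have hs2 : 1 / (2 * (n:ℝ)) ≤ 1 / 2 := by
    rw [div_le_div_iff₀ (by positivity) (by norm_num)]
    linarith
  have hs3 : 0 < 1 / (2 * (n:ℝ)) := by positivity
  have hs0 : 1 / 2 ≤ s := by rw [hs]; linarith
  have hs1 : s < 1 := by rw [hs]; linarith
  have h1 := coeff_le S hb hn (by linarith : 0 < s) hs1
  have hR : 1 < s⁻¹ := (one_lt_inv₀ (by linarith)).2 hs1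
  have h2 := hm s⁻¹ hR ψ h S
  have h3 : Real.exp (LL s⁻¹ * (2 / 5 - η)) ≤ 2 * (n : ℝ) ^ (2 / 5 - η) := by
    rw [← LL_eq hR, inv_inv]
    have h4 : 0 < 1 - s ^ 2 := by nlinarith
    rw [show -Real.log (1 - s ^ 2) * (2 / 5 - η) = Real.log (1 - s ^ 2) * (-(2 / 5 - η)) by ring, ← Real.rpow_def_of_pos h4]
    calc (1 - s ^ 2) ^ (-(2 / 5 - η)) ≤ (1 / (2 * (n:ℝ))) ^ (-(2 / 5 - η)) := by
          apply Real.rpow_le_rpow_of_nonpos hs3 _ (by linarith)
          have : 1 / (2 * (n:ℝ)) = 1 - s := by rw [hs]; ring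
          rw [this]
          nlinarith
      _ = (2 * (n:ℝ)) ^ (2 / 5 - η) := by
          rw [one_div, Real.inv_rpow (by positivity), ← Real.rpow_neg (by positivity), neg_neg]
      _ = 2 ^ (2 / 5 - η) * (n:ℝ) ^ (2 / 5 - η) := Real.mul_rpow (by norm_num) (by positivity)
      _ ≤ 2 * (n : ℝ) ^ (2 / 5 - η) := by
          apply mul_le_mul_of_nonneg_right _ (by positivity)
          calc (2:ℝ) ^ (2 / 5 - η) ≤ 2 ^ (1:ℝ) := Real.rpow_le_rpow_of_exponent_le (by norm_num) (by linarith)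
            _ = 2 := Real.rpow_one 2
  have h5 : 1 ≤ (n : ℝ) ^ (2 / 5 - η) := Real.one_le_rpow hn1 (by linarith)
  have h6 : (s⁻¹) ^ 2 ≤ 4 := by
    have : s⁻¹ ≤ 2 := by
      rw [inv_le_comm₀ (by linarith) (by norm_num)]
      norm_num at hs0 ⊢
      linarith
    have h7 : 0 < s⁻¹ := by linarith
    nlinarith
  have h7 : 1 / 2 ≤ s ^ (n - 1) := by
    have h8 := one_add_mul_le_pow (a := -(1 / (2 * (n:ℝ)))) (by linarith) n
    have h9 : 1 + (n:ℝ) * -(1 / (2 * (n:ℝ))) = 1 / 2 := by field_simp; ring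
    rw [h9] at h8
    calc 1 / 2 ≤ (1 + -(1 / (2 * (n:ℝ)))) ^ n := h8
      _ = s ^ n := by rw [hs, ← sub_eq_add_neg]
      _ ≤ s ^ (n - 1) := pow_le_pow_of_le_one (by linarith) hs1.le (by omega)
  have h8 : n * ‖b n‖ * (1 / 2) ≤ 4 * (1 + 2 * K) * (n : ℝ) ^ (2 / 5 - η) := by
    calc n * ‖b n‖ * (1 / 2) ≤ n * ‖b n‖ * s ^ (n - 1) := mul_le_mul_of_nonneg_left h7 (by positivity)
      _ ≤ (s⁻¹) ^ 2 * (1 + mn 1 s⁻¹ h) := h1
      _ ≤ 4 * (1 + K * (2 * (n : ℝ) ^ (2 / 5 - η))) := by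
          have h9 : mn 1 s⁻¹ h ≤ K * (2 * (n : ℝ) ^ (2 / 5 - η)) := h2.trans (mul_le_mul_of_nonneg_left h3 hK)
          have h10 := mn_nonneg 1 s⁻¹ h
          have h11 : 0 ≤ (s⁻¹) ^ 2 := by positivity
          calc (s⁻¹) ^ 2 * (1 + mn 1 s⁻¹ h) ≤ 4 * (1 + mn 1 s⁻¹ h) := mul_le_mul_of_nonneg_right h6 (by linarith)
            _ ≤ _ := by linarith
      _ ≤ 4 * ((n : ℝ) ^ (2 / 5 - η) + K * (2 * (n : ℝ) ^ (2 / 5 - η))) := by linarith
      _ = _ := by ring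
  have h9 : (n : ℝ) ^ (-(3 / 5) - η) * n = (n : ℝ) ^ (2 / 5 - η) := by
    nth_rw 2 [← Real.rpow_one (n:ℝ)]
    rw [← Real.rpow_add (by linarith)]
    congr 1
    ring
  have hn0 : 0 < (n:ℝ) := by linarith
  rw [← mul_le_mul_iff_left₀ hn0, mul_assoc (8 * (1 + 2 * K)), h9]
  linarith

end V5helper73.SZ
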