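import Pool.Agent.V5helper73.SZ.StmD
import Pool.Agent.V5helper28.SZ.CL2
import Pool.Agent.V5helper28.SZ.FIN2

set_option autoImplicit false
open Complex Metric Set Filter Topology MeasureTheory

namespace V5helper73.SZ

open V5helper28.SZ (lg lg_le lt_lg le_lg geo_sum)

/-- the cluster bound with the weight `|w|^(-2)` -/
theorem cl_two (h1 : S_TREE) (h2 : S_CLA) : ∀ R : ℝ, 0 < R → ∃ K η : ℝ, 0 ≤ K ∧ 0 < η ∧ η ≤ 1 / 100 ∧
    ∀ f : ℂ → ℂ, InS f → ∀ k m i : ℕ, 2 ≤ k → k ≤ m → i < 2 ^ k → ∀ (s : Finset ℕ),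
    (∀ j ∈ s, j < 2 ^ m ∧ j / 2 ^ (m - k) = i ∧ ‖f (pt m j) - f (pt k i)‖ ≤ R * dd f (pt k i)) →
      ∑ j ∈ s, dd f (pt m j) * ‖f (pt m j)‖ ^ (-2 : ℝ) ≤ K * 2 ^ ((2 / 5 - η) * ((m : ℝ) - k)) := by
  intro R hR
  obtain ⟨K, η, hK, hη, hη', h⟩ := h2 R hR
  obtain ⟨C, hC⟩ : ∃ C : ℝ, C = 2000000 := ⟨_, rfl⟩
  have hC1 : 1 ≤ C := by rw [hC]; norm_num
  have hC0 : 0 < C := by linarith
  set c0 : ℝ := 1 / (C * (C + 1)) with hc0
  have hc0p : 0 < c0 := by positivity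
  set a0 : ℤ := lg c0 with ha0
  refine ⟨K * (((2:ℝ) ^ (a0 : ℝ))⁻¹ * 2), η, by positivity, hη, hη', ?_⟩
  intro f hf k m i hk hkm hi s hs
  have T := h1 f hf
  rw [← hC] at T
  set E : ℝ := (2 : ℝ) ^ ((2 / 5 - η) * ((m : ℝ) - k)) with hE
  have hE0 : 0 ≤ E := by positivity
  have hy : ∀ j, c0 ≤ ‖f (pt m j)‖ := by
    intro j
    have e1 := T.whit 0 0 m j
    have e2 : dd f (pt 0 0) = 1 := T.one
    have e3 : f (pt 0 0) = 0 := T.root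
    have e4 : dd f (pt m j) ≤ C * ‖f (pt m j)‖ := T.low m j (by omega)
    rw [e2, e3, zero_sub, norm_neg] at e1
    rw [hc0, div_le_iff₀ (by positivity)]
    nlinarith
  have hyp : ∀ j, 0 < ‖f (pt m j)‖ := fun j => hc0p.trans_le (hy j)
  set A : Finset ℤ := s.image (fun j => lg ‖f (pt m j)‖) with hA
  have hmaps : ∀ j ∈ s, (fun j => lg ‖f (pt m j)‖) j ∈ A := fun j hj => Finset.mem_image_of_mem _ hj
  rw [← Finset.sum_fiberwise_of_maps_to hmaps]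
  have hlev : ∀ a ∈ A, ∑ j ∈ s.filter (fun j => lg ‖f (pt m j)‖ = a), dd f (pt m j) * ‖f (pt m j)‖ ^ (-2 : ℝ) ≤
      K * E * (((2:ℝ) ^ (a0 : ℝ))⁻¹ * (1 / 2 : ℝ) ^ (a - a0).toNat) := by
    intro a ha
    have hM : 0 < (2 : ℝ) ^ (a : ℝ) := Real.rpow_pos_of_pos (by norm_num) _
    have haa : a0 ≤ a := by
      obtain ⟨j, hj, hja⟩ := Finset.mem_image.1 ha
      rw [← hja]
      apply le_lg (hyp j)
      exact (lg_le hc0p).trans (hy j)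
    have h1 : ∑ j ∈ s.filter (fun j => lg ‖f (pt m j)‖ = a), dd f (pt m j) * ‖f (pt m j)‖ ^ (-2 : ℝ) ≤
        ∑ j ∈ s.filter (fun j => lg ‖f (pt m j)‖ = a), dd f (pt m j) * ((2 : ℝ) ^ (a : ℝ)) ^ (-2 : ℝ) := by
      apply Finset.sum_le_sum
      intro j hj
      rw [Finset.mem_filter] at hj
      have h2 : (2 : ℝ) ^ (a : ℝ) ≤ ‖f (pt m j)‖ := by rw [← hj.2]; exact lg_le (hyp j)
      exact mul_le_mul_of_nonneg_left (Real.rpow_le_rpow_of_nonpos hM h2 (by norm_num)) (T.pos m j).le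
    rw [← Finset.sum_mul] at h1
    have h3 := h f hf k m i hk hkm hi (s.filter (fun j => lg ‖f (pt m j)‖ = a)) _ hM (by
      intro j hj
      rw [Finset.mem_filter] at hj
      obtain ⟨h4, h5, h6⟩ := hs j hj.1
      refine ⟨h4, h5, h6, ?_, ?_⟩
      · rw [← hj.2]; exact lg_le (hyp j)
      · rw [← hj.2]; exact lt_lg (hyp j))
    have h4 : 0 ≤ ((2 : ℝ) ^ (a : ℝ)) ^ (-2 : ℝ) := Real.rpow_nonneg hM.le _
    have h5 : K * min ((2 : ℝ) ^ (a : ℝ)) (dd f (pt k i)) * E ≤ K * (2 : ℝ) ^ (a : ℝ) * E := by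
      have := min_le_left ((2 : ℝ) ^ (a : ℝ)) (dd f (pt k i))
      gcongr
    have h6 : ((2 : ℝ) ^ (a : ℝ)) * ((2 : ℝ) ^ (a : ℝ)) ^ (-2 : ℝ) = ((2:ℝ) ^ (a0 : ℝ))⁻¹ * (1 / 2 : ℝ) ^ (a - a0).toNat := by
      have e1 : (1 / 2 : ℝ) ^ (a - a0).toNat = (2 : ℝ) ^ (-((a : ℝ) - a0)) := by
        rw [Real.rpow_neg (by norm_num), one_div, inv_pow]
        congr 1
        rw [← Real.rpow_natCast]
        congr 1
        have h7 : (((a - a0).toNat : ℤ) : ℝ) = ((a - a0 : ℤ) : ℝ) := by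
          rw [Int.toNat_of_nonneg (by omega)]
        push_cast at h7
        exact h7
      rw [e1, ← Real.rpow_neg (by norm_num), ← Real.rpow_mul (by norm_num), ← Real.rpow_add (by norm_num), ← Real.rpow_add (by norm_num)]
      congr 1
      ring
    calc ∑ j ∈ s.filter (fun j => lg ‖f (pt m j)‖ = a), dd f (pt m j) * ‖f (pt m j)‖ ^ (-2 : ℝ)
        ≤ (∑ j ∈ s.filter (fun j => lg ‖f (pt m j)‖ = a), dd f (pt m j)) * ((2 : ℝ) ^ (a : ℝ)) ^ (-2 : ℝ) := h1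
      _ ≤ (K * (2 : ℝ) ^ (a : ℝ) * E) * ((2 : ℝ) ^ (a : ℝ)) ^ (-2 : ℝ) := mul_le_mul_of_nonneg_right (h3.trans h5) h4
      _ = K * E * (((2 : ℝ) ^ (a : ℝ)) * ((2 : ℝ) ^ (a : ℝ)) ^ (-2 : ℝ)) := by ring
      _ = _ := by rw [h6]
  have hgeo : ∑ a ∈ A, (1 / 2 : ℝ) ^ (a - a0).toNat ≤ (1 - 1 / 2 : ℝ)⁻¹ := by
    apply geo_sum (1 / 2) (by norm_num) (by norm_num) A (fun a => (a - a0).toNat)
    intro a ha b hb hab
    have e1 : ∀ a ∈ A, a0 ≤ a := by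
      intro a ha
      obtain ⟨j, hj, hja⟩ := Finset.mem_image.1 ha
      rw [← hja]
      apply le_lg (hyp j)
      exact (lg_le hc0p).trans (hy j)
    have e2 := e1 a ha
    have e3 := e1 b hb
    simp only at hab
    omega
  calc _ ≤ ∑ a ∈ A, K * E * (((2:ℝ) ^ (a0 : ℝ))⁻¹ * (1 / 2 : ℝ) ^ (a - a0).toNat) := Finset.sum_le_sum hlev
    _ = K * E * ((2:ℝ) ^ (a0 : ℝ))⁻¹ * ∑ a ∈ A, (1 / 2 : ℝ) ^ (a - a0).toNat := by
        rw [Finset.mul_sum]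
        refine Finset.sum_congr rfl fun a _ => ?_
        ring
    _ ≤ K * E * ((2:ℝ) ^ (a0 : ℝ))⁻¹ * (1 - 1 / 2 : ℝ)⁻¹ := mul_le_mul_of_nonneg_left hgeo (by positivity)
    _ = _ := by norm_num; ring

/-- attachment to a vertex of level at least two -/
theorem att_two {C δ : ℝ} (hC : 1 ≤ C) (hδ : 0 < δ) (h2 : S_ATT) {w : ℕ → ℕ → ℂ} {d : ℕ → ℕ → ℝ} (T : Tree C w d) (m j : ℕ) (hm : 2 ≤ m)
    (hj : j < 2 ^ m) : ∃ k : ℕ, 2 ≤ k ∧ k ≤ m ∧ (adm δ d k (j / 2 ^ (m - k)) ∨ k = 2) ∧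
      ‖w m j - w k (j / 2 ^ (m - k))‖ ≤ ((C / (1 - 2 ^ (-δ)) + C) * C ^ 2 + C ^ 2) * d k (j / 2 ^ (m - k)) := by
  obtain ⟨k, hk, ha, hb⟩ := h2 C δ hC hδ w d T m j hj
  have h2δ : (2 : ℝ) ^ (-δ) < 1 := Real.rpow_lt_one_of_one_lt_of_neg (by norm_num) (by linarith)
  set R : ℝ := C / (1 - 2 ^ (-δ)) with hR
  have hR0 : 0 < R := div_pos (by linarith) (by linarith)
  have hC0 : 0 < C := by linarith
  have hC2 : 1 ≤ C ^ 2 := by nlinarith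
  rcases le_or_gt 2 k with hk2 | hk2
  · refine ⟨k, hk2, hk, Or.inl ha, hb.trans ?_⟩
    apply mul_le_mul_of_nonneg_right _ (T.pos _ _).le
    nlinarith
  · refine ⟨2, le_rfl, hm, Or.inr rfl, ?_⟩
    set i2 : ℕ := j / 2 ^ (m - 2) with hi2
    have d2 := T.pos 2 i2
    have e1 : i2 / 2 = j / 2 ^ (m - 1) := by
      rw [hi2, Nat.div_div_eq_div_mul, ← pow_succ]
      congr 2
      omega
    have e0 : i2 / 2 / 2 = j / 2 ^ (m - 0) := by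
      rw [e1, Nat.div_div_eq_div_mul, ← pow_succ]
      congr 2
      omega
    have s1 := T.step 1 i2
    have p1 := T.parent 1 i2
    have s0 := T.step 0 (i2 / 2)
    have p0 := T.parent 0 (i2 / 2)
    simp only [zero_add, Nat.reduceAdd] at s1 p1 s0 p0
    have hk01 : k = 1 ∨ k = 0 := by omega
    rcases hk01 with h | h
    · rw [h, ← e1] at hb
      calc ‖w m j - w 2 i2‖ = ‖(w m j - w 1 (i2 / 2)) - (w 2 i2 - w 1 (i2 / 2))‖ := by congr 1; ring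
        _ ≤ ‖w m j - w 1 (i2 / 2)‖ + ‖w 2 i2 - w 1 (i2 / 2)‖ := norm_sub_le _ _
        _ ≤ (R + C) * d 1 (i2 / 2) := by linarith
        _ ≤ (R + C) * (C * d 2 i2) := mul_le_mul_of_nonneg_left p1 (by positivity)
        _ ≤ ((R + C) * C ^ 2 + C ^ 2) * d 2 i2 := by
            have q1 : (R + C) * C ≤ (R + C) * C ^ 2 := mul_le_mul_of_nonneg_left (by nlinarith) (by positivity)
            have q2 : (R + C) * C ≤ (R + C) * C ^ 2 + C ^ 2 := by linarith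
            calc (R + C) * (C * d 2 i2) = (R + C) * C * d 2 i2 := by ring
              _ ≤ _ := mul_le_mul_of_nonneg_right q2 d2.le
    · rw [h, ← e0] at hb
      have d1 := T.pos 1 (i2 / 2)
      calc ‖w m j - w 2 i2‖ = ‖(w m j - w 0 (i2 / 2 / 2)) - (w 1 (i2 / 2) - w 0 (i2 / 2 / 2)) - (w 2 i2 - w 1 (i2 / 2))‖ := by congr 1; ring
        _ ≤ ‖(w m j - w 0 (i2 / 2 / 2)) - (w 1 (i2 / 2) - w 0 (i2 / 2 / 2))‖ + ‖w 2 i2 - w 1 (i2 / 2)‖ := norm_sub_le _ _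
        _ ≤ ‖w m j - w 0 (i2 / 2 / 2)‖ + ‖w 1 (i2 / 2) - w 0 (i2 / 2 / 2)‖ + ‖w 2 i2 - w 1 (i2 / 2)‖ := by
            have := norm_sub_le (w m j - w 0 (i2 / 2 / 2)) (w 1 (i2 / 2) - w 0 (i2 / 2 / 2))
            linarith
        _ ≤ (R + C) * d 0 (i2 / 2 / 2) + C * d 1 (i2 / 2) := by linarith
        _ ≤ (R + C) * (C * (C * d 2 i2)) + C * (C * d 2 i2) := by
            have q1 : d 0 (i2 / 2 / 2) ≤ C * (C * d 2 i2) := p0.trans (mul_le_mul_of_nonneg_left p1 hC0.le)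
            have q2 := mul_le_mul_of_nonneg_left q1 (by positivity : 0 ≤ R + C)
            have q3 := mul_le_mul_of_nonneg_left p1 hC0.le
            linarith
        _ = _ := by ring

/-- the number of the admissible vertices of a level -/
theorem adm_card {C δ : ℝ} (hC : 1 ≤ C) (hδ : 0 < δ) (hδ2 : δ ≤ 1) (h3 : S_SUMX) : ∃ K : ℝ, 0 ≤ K ∧
    ∀ (w : ℕ → ℕ → ℂ) (d : ℕ → ℕ → ℝ), Tree C w d → ∀ (k : ℕ) (s : Finset ℕ), (∀ i ∈ s, i < 2 ^ k ∧ adm δ d k i) →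
      (s.card : ℝ) ≤ K * 2 ^ (3 * δ * (k : ℝ)) := by
  obtain ⟨K, hK⟩ := h3 C δ 0 hC le_rfl hδ (by linarith)
  refine ⟨|K|, abs_nonneg _, fun w d T k s hs => ?_⟩
  have h1 := hK w d T k s (fun i hi => by rw [sub_zero]; exact hs i hi)
  have h4 : ∀ i ∈ s, (2:ℝ) ^ (-(δ * (k : ℝ))) ≤ (d k i) ^ δ * (‖w k i‖ + d k i) ^ (-0 : ℝ) := by
    intro i hi
    rw [neg_zero, Real.rpow_zero, mul_one]
    have h5 := (hs i hi).2 0 (Nat.zero_le k)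
    have hi0 : i / 2 ^ (k - 0) = 0 := Nat.div_eq_of_lt (by simpa using (hs i hi).1)
    rw [hi0, T.one] at h5
    simp only [Nat.cast_zero, sub_zero] at h5
    have h6 : (2:ℝ) ^ (-(δ * (k : ℝ))) ≤ d k i := by
      rw [Real.rpow_neg (by norm_num), inv_le_iff_one_le_mul₀ (by positivity)]
      exact h5
    have hp : 0 < (2:ℝ) ^ (-(δ * (k : ℝ))) := by positivity
    have hp1 : (2:ℝ) ^ (-(δ * (k : ℝ))) ≤ 1 := by
      apply Real.rpow_le_one_of_one_le_of_nonpos (by norm_num)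
      have : 0 ≤ δ * (k : ℝ) := by positivity
      linarith
    calc (2:ℝ) ^ (-(δ * (k : ℝ))) = ((2:ℝ) ^ (-(δ * (k : ℝ)))) ^ (1:ℝ) := (Real.rpow_one _).symm
      _ ≤ ((2:ℝ) ^ (-(δ * (k : ℝ)))) ^ δ := Real.rpow_le_rpow_of_exponent_ge hp hp1 hδ2
      _ ≤ (d k i) ^ δ := Real.rpow_le_rpow hp.le h6 hδ.le
  have h7 : (s.card : ℝ) * (2:ℝ) ^ (-(δ * (k : ℝ))) ≤ ∑ i ∈ s, (d k i) ^ δ * (‖w k i‖ + d k i) ^ (-0 : ℝ) := by
    calc (s.card : ℝ) * (2:ℝ) ^ (-(δ * (k : ℝ))) = ∑ _i ∈ s, (2:ℝ) ^ (-(δ * (k : ℝ))) := by simp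
      _ ≤ _ := Finset.sum_le_sum h4
  have h8 := h7.trans h1
  have h40 : (4:ℝ) ^ ((k : ℝ) * (δ - 0)) = 2 ^ (2 * δ * (k : ℝ)) := by
    have : (4:ℝ) = 2 ^ (2:ℝ) := by norm_num
    rw [this, ← Real.rpow_mul (by norm_num)]
    congr 1
    ring
  rw [h40] at h8
  have h9 : (s.card : ℝ) = (s.card : ℝ) * (2:ℝ) ^ (-(δ * (k : ℝ))) * 2 ^ (δ * (k : ℝ)) := by
    rw [mul_assoc, ← Real.rpow_add (by norm_num)]
    simp
  have hn : (0:ℝ) ≤ 2 ^ (2 * δ * (k : ℝ)) := by positivity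
  calc (s.card : ℝ) = (s.card : ℝ) * (2:ℝ) ^ (-(δ * (k : ℝ))) * 2 ^ (δ * (k : ℝ)) := h9
    _ ≤ (K * 2 ^ (2 * δ * (k : ℝ))) * 2 ^ (δ * (k : ℝ)) := mul_le_mul_of_nonneg_right h8 (by positivity)
    _ ≤ (|K| * 2 ^ (2 * δ * (k : ℝ))) * 2 ^ (δ * (k : ℝ)) := by
        have := le_abs_self K
        gcongr
    _ = |K| * 2 ^ (3 * δ * (k : ℝ)) := by
        rw [mul_assoc, ← Real.rpow_add (by norm_num)]
        congr 2
        ring

/-- the leaf sum with the weight `|w|^(-2)` -/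
theorem leaves2 (h1 : S_TREE) (h2 : S_ATT) (h3 : S_SUMX) (h4 : S_CLA) : ∃ K η : ℝ, 0 ≤ K ∧ 0 < η ∧ η ≤ 1 / 100 ∧
    ∀ f : ℂ → ℂ, InS f → ∀ m : ℕ, 2 ≤ m →
      ∑ j ∈ Finset.range (2 ^ m), dd f (pt m j) * ‖f (pt m j)‖ ^ (-2 : ℝ) ≤ K * 2 ^ ((2 / 5 - η) * (m : ℝ)) := by
  obtain ⟨C, hC⟩ : ∃ C : ℝ, C = 2000000 := ⟨_, rfl⟩
  have hC1 : 1 ≤ C := by rw [hC]; norm_num
  have hC0 : 0 < C := by linarith
  set δ : ℝ := 1 / 30 with hδd
  have hδ : 0 < δ := by norm_num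
  have h2δ : (2 : ℝ) ^ (-δ) < 1 := Real.rpow_lt_one_of_one_lt_of_neg (by norm_num) (by linarith)
  have hR1 : 0 < C / (1 - 2 ^ (-δ)) := div_pos hC0 (by linarith)
  set R : ℝ := (C / (1 - 2 ^ (-δ)) + C) * C ^ 2 + C ^ 2 with hR
  have hR0 : 0 < R := by positivity
  obtain ⟨K₁, η, hK₁, hη, hη', hcl⟩ := cl_two h1 h4 R hR0
  obtain ⟨K₂, hK₂, hcard⟩ := adm_card hC1 hδ (by norm_num : δ ≤ 1) h3
  set θ : ℝ := (2 : ℝ) ^ (-(1 / 5) : ℝ) with hθ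
  have hθ0 : 0 < θ := Real.rpow_pos_of_pos (by norm_num) _
  have hθ1 : θ < 1 := Real.rpow_lt_one_of_one_lt_of_neg (by norm_num) (by linarith)
  have hθ2 : 0 < (1 - θ)⁻¹ := inv_pos.2 (by linarith)
  refine ⟨K₁ * (K₂ + 4) * (1 - θ)⁻¹, η, by positivity, hη, hη', ?_⟩
  intro f hf m hm
  have T := h1 f hf
  rw [← hC] at T
  have hatt : ∀ j : ℕ, ∃ k : ℕ, j < 2 ^ m → 2 ≤ k ∧ k ≤ m ∧
      (adm δ (fun k i => dd f (pt k i)) k (j / 2 ^ (m - k)) ∨ k = 2) ∧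
      ‖f (pt m j) - f (pt k (j / 2 ^ (m - k)))‖ ≤ R * dd f (pt k (j / 2 ^ (m - k))) := by
    intro j
    by_cases hj : j < 2 ^ m
    · obtain ⟨k, hk2, hk, ha, hb⟩ := att_two hC1 hδ h2 T m j hm hj
      exact ⟨k, fun _ => ⟨hk2, hk, ha, hb⟩⟩
    · exact ⟨0, fun h => absurd h hj⟩
  choose κ hκ using hatt
  have hmaps : ∀ j ∈ Finset.range (2 ^ m), κ j ∈ Finset.range (m + 1) := by
    intro j hj
    rw [Finset.mem_range] at hj ⊢
    have := (hκ j hj).2.1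
    omega
  rw [← Finset.sum_fiberwise_of_maps_to hmaps]
  have hlev : ∀ k ∈ Finset.range (m + 1),
      ∑ j ∈ (Finset.range (2 ^ m)).filter (fun j => κ j = k), dd f (pt m j) * ‖f (pt m j)‖ ^ (-2 : ℝ) ≤
        K₁ * (K₂ + 4) * ((2 : ℝ) ^ ((2 / 5 - η) * (m : ℝ)) * θ ^ k) := by
    intro k hk
    have hkm : k ≤ m := by
      rw [Finset.mem_range] at hk; omega
    have hk0 : (0:ℝ) ≤ k := by positivity
    set S := (Finset.range (2 ^ m)).filter (fun j => κ j = k) with hS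
    have hmaps2 : ∀ j ∈ S, (fun j => j / 2 ^ (m - k)) j ∈ S.image (fun j => j / 2 ^ (m - k)) :=
      fun j hj => Finset.mem_image_of_mem _ hj
    have hSj : ∀ j ∈ S, 2 ≤ k ∧ j < 2 ^ m ∧ j / 2 ^ (m - k) < 2 ^ k ∧
        (adm δ (fun k i => dd f (pt k i)) k (j / 2 ^ (m - k)) ∨ k = 2) ∧
        ‖f (pt m j) - f (pt k (j / 2 ^ (m - k)))‖ ≤ R * dd f (pt k (j / 2 ^ (m - k))) := by
      intro j hj
      rw [hS, Finset.mem_filter, Finset.mem_range] at hj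
      obtain ⟨hj1, hj2⟩ := hj
      have := hκ j hj1
      rw [hj2] at this
      refine ⟨this.1, hj1, ?_, this.2.2.1, this.2.2.2⟩
      apply Nat.div_lt_of_lt_mul
      rw [← pow_add]
      have h6 : m - k + k = m := by omega
      rw [h6]; exact hj1
    rw [← Finset.sum_fiberwise_of_maps_to hmaps2]
    have hin : ∀ i ∈ S.image (fun j => j / 2 ^ (m - k)),
        ∑ j ∈ S.filter (fun j => j / 2 ^ (m - k) = i), dd f (pt m j) * ‖f (pt m j)‖ ^ (-2 : ℝ) ≤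
          K₁ * 2 ^ ((2 / 5 - η) * ((m : ℝ) - k)) := by
      intro i hi
      obtain ⟨j₀, hj₀, hj₀'⟩ := Finset.mem_image.1 hi
      apply hcl f hf k m i (hSj j₀ hj₀).1 hkm (by rw [← hj₀']; exact (hSj j₀ hj₀).2.2.1)
      intro j hj
      rw [Finset.mem_filter] at hj
      obtain ⟨h5, h6, h7, h8, h9⟩ := hSj j hj.1
      rw [hj.2] at h9
      exact ⟨h6, hj.2, h9⟩
    have hcd : ((S.image (fun j => j / 2 ^ (m - k))).card : ℝ) ≤ (K₂ + 4) * 2 ^ (3 * δ * (k : ℝ)) := by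
      have h1le : (1:ℝ) ≤ 2 ^ (3 * δ * (k : ℝ)) := Real.one_le_rpow (by norm_num) (by positivity)
      by_cases hk2 : k = 2
      · have h5 : (S.image (fun j => j / 2 ^ (m - k))) ⊆ Finset.range 4 := by
          intro i hi
          obtain ⟨j₀, hj₀, hj₀'⟩ := Finset.mem_image.1 hi
          have h6 := (hSj j₀ hj₀).2.2.1
          rw [← hj₀', Finset.mem_range]
          rw [hk2] at h6 ⊢
          simpa using h6
        have h7 := Finset.card_le_card h5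
        rw [Finset.card_range] at h7
        have h8 : ((S.image (fun j => j / 2 ^ (m - k))).card : ℝ) ≤ 4 := by exact_mod_cast h7
        have h9 : 0 ≤ K₂ * (2:ℝ) ^ (3 * δ * (k : ℝ)) := by positivity
        generalize (2:ℝ) ^ (3 * δ * (k : ℝ)) = X at h1le h9 ⊢
        rw [add_mul]
        linarith
      · have h5 := hcard _ _ T k (S.image (fun j => j / 2 ^ (m - k))) (by
          intro i hi
          obtain ⟨j₀, hj₀, hj₀'⟩ := Finset.mem_image.1 hi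
          obtain ⟨h5, h6, h7, h8, h9⟩ := hSj j₀ hj₀
          rw [← hj₀']
          refine ⟨h7, ?_⟩
          rcases h8 with h | h
          · exact h
          · exact absurd h hk2)
        have h9 : 0 ≤ 4 * (2:ℝ) ^ (3 * δ * (k : ℝ)) := by positivity
        generalize (2:ℝ) ^ (3 * δ * (k : ℝ)) = X at h5 h9 ⊢
        rw [add_mul]
        linarith
    have hexp : (2 : ℝ) ^ (3 * δ * (k : ℝ)) * (2 : ℝ) ^ ((2 / 5 - η) * ((m : ℝ) - k)) ≤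
        (2 : ℝ) ^ ((2 / 5 - η) * (m : ℝ)) * θ ^ k := by
      rw [hθ, ← Real.rpow_natCast, ← Real.rpow_mul (by norm_num : (0:ℝ) ≤ 2),
        ← Real.rpow_add (by norm_num : (0:ℝ) < 2), ← Real.rpow_add (by norm_num : (0:ℝ) < 2)]
      apply Real.rpow_le_rpow_of_exponent_le (by norm_num)
      rw [hδd]
      nlinarith
    have hE0 : 0 ≤ (2 : ℝ) ^ ((2 / 5 - η) * ((m : ℝ) - k)) := Real.rpow_nonneg (by norm_num) _
    calc _ ≤ ∑ _i ∈ S.image (fun j => j / 2 ^ (m - k)), K₁ * 2 ^ ((2 / 5 - η) * ((m : ℝ) - k)) := Finset.sum_le_sum hin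
      _ = ((S.image (fun j => j / 2 ^ (m - k))).card : ℝ) * (K₁ * 2 ^ ((2 / 5 - η) * ((m : ℝ) - k))) := by
          rw [Finset.sum_const, nsmul_eq_mul]
      _ ≤ ((K₂ + 4) * 2 ^ (3 * δ * (k : ℝ))) * (K₁ * 2 ^ ((2 / 5 - η) * ((m : ℝ) - k))) :=
          mul_le_mul_of_nonneg_right hcd (by positivity)
      _ = K₁ * (K₂ + 4) * ((2 : ℝ) ^ (3 * δ * (k : ℝ)) * (2 : ℝ) ^ ((2 / 5 - η) * ((m : ℝ) - k))) := by ring
      _ ≤ _ := mul_le_mul_of_nonneg_left hexp (by positivity)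
  have hgeo : ∑ k ∈ Finset.range (m + 1), θ ^ k ≤ (1 - θ)⁻¹ := by
    rw [← tsum_geometric_of_lt_one hθ0.le hθ1]
    exact (summable_geometric_of_lt_one hθ0.le hθ1).sum_le_tsum _ (fun i _ => pow_nonneg hθ0.le i)
  calc _ ≤ ∑ k ∈ Finset.range (m + 1), K₁ * (K₂ + 4) * ((2 : ℝ) ^ ((2 / 5 - η) * (m : ℝ)) * θ ^ k) :=
        Finset.sum_le_sum hlev
    _ = K₁ * (K₂ + 4) * (2 : ℝ) ^ ((2 / 5 - η) * (m : ℝ)) * ∑ k ∈ Finset.range (m + 1), θ ^ k := by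
        rw [Finset.mul_sum]
        apply Finset.sum_congr rfl
        intro k _
        ring
    _ ≤ K₁ * (K₂ + 4) * (2 : ℝ) ^ ((2 / 5 - η) * (m : ℝ)) * (1 - θ)⁻¹ := by
        apply mul_le_mul_of_nonneg_left hgeo
        positivity
    _ = _ := by ring

theorem t_SIGM (h1 : S_TREE) (h2 : S_ATT) (h3 : S_SUMX) (h4 : S_CLA) (h5 : S_MEAN) : S_SIGM := by
  obtain ⟨K, η, hK, hη, hη', hle⟩ := leaves2 h1 h2 h3 h4
  obtain ⟨K₃, hK₃, hmean⟩ := h5 1 2 (by norm_num) (by norm_num)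
  refine ⟨K₃ * K * 2, η, by positivity, hη, hη', ?_⟩
  intro f hf r hr hr1
  obtain ⟨n, hn1, hn2⟩ := exists_nat_pow_near_of_lt_one (x := 1 - r) (y := (1 / 2 : ℝ)) (by linarith)
    (by linarith) (by norm_num) (by norm_num)
  have hm1 : 1 - 2 * (1 / 2 : ℝ) ^ (n + 1) ≤ r := by
    rw [pow_succ]; linarith
  have hm2 : r ≤ 1 - (1 / 2 : ℝ) ^ (n + 1) := by linarith
  have hn : 2 ≤ n + 1 := by
    rcases Nat.eq_zero_or_pos n with h | h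
    · rw [h] at hn1
      norm_num at hn1
      linarith
    · omega
  obtain ⟨ε, hε⟩ : ∃ ε : ℝ, ε = 2 / 5 - η := ⟨_, rfl⟩
  have hε0 : 0 < ε := by linarith
  have hε1 : ε ≤ 1 := by linarith
  have h6 := hmean f hf (n + 1) r hr hm1 hm2
  simp only [Real.rpow_one] at h6
  simp only [Real.rpow_one]
  have h7 := hle f hf (n + 1) hn
  rw [← hε] at h7 ⊢
  have h8 : (1 / 2 : ℝ) ^ (n + 1) * ∑ j ∈ Finset.range (2 ^ (n + 1)),
      ‖deriv f (pt (n + 1) j)‖ * ‖f (pt (n + 1) j)‖ ^ (-2 : ℝ) ≤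
      ∑ j ∈ Finset.range (2 ^ (n + 1)), dd f (pt (n + 1) j) * ‖f (pt (n + 1) j)‖ ^ (-2 : ℝ) := by
    rw [Finset.mul_sum]
    apply Finset.sum_le_sum
    intro j _
    have h9 : (1 / 2 : ℝ) ^ (n + 1) * ‖deriv f (pt (n + 1) j)‖ ≤ dd f (pt (n + 1) j) := by
      rw [dd, V5helper28.SZ.F2.norm_pt, mul_comm]
      apply mul_le_mul_of_nonneg_left _ (norm_nonneg _)
      have h10 : (1 / 2 : ℝ) ^ (n + 1) ≤ 1 := pow_le_one₀ (by norm_num) (by norm_num)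
      have h11 : 0 < (1 / 2 : ℝ) ^ (n + 1) := by positivity
      nlinarith
    have h10 : 0 ≤ ‖f (pt (n + 1) j)‖ ^ (-2 : ℝ) := Real.rpow_nonneg (norm_nonneg _) _
    have h11 := mul_le_mul_of_nonneg_right h9 h10
    linarith
  have h12 : (2 : ℝ) ^ (ε * ((n + 1 : ℕ) : ℝ)) ≤ 2 * (1 - r) ^ (-ε) := by
    have h13 : 1 - r ≤ (2 : ℝ) ^ (1 - ((n + 1 : ℕ) : ℝ)) := by
      rw [Real.rpow_sub (by norm_num), Real.rpow_one, Real.rpow_natCast]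
      have h14 : (2 : ℝ) / 2 ^ (n + 1) = 2 * (1 / 2 : ℝ) ^ (n + 1) := by
        rw [one_div, inv_pow]; rfl
      rw [h14, pow_succ]
      linarith
    have h15 : ((2 : ℝ) ^ (1 - ((n + 1 : ℕ) : ℝ))) ^ (-ε) ≤ (1 - r) ^ (-ε) :=
      Real.rpow_le_rpow_of_nonpos (by linarith) h13 (by linarith)
    rw [← Real.rpow_mul (by norm_num)] at h15
    have h16 : (2 : ℝ) ^ (ε * ((n + 1 : ℕ) : ℝ)) =
        (2 : ℝ) ^ ε * (2 : ℝ) ^ ((1 - ((n + 1 : ℕ) : ℝ)) * (-ε)) := by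
      rw [← Real.rpow_add (by norm_num)]
      congr 1
      ring
    have h17 : (2 : ℝ) ^ ε ≤ 2 := by
      calc (2 : ℝ) ^ ε ≤ (2 : ℝ) ^ (1 : ℝ) := Real.rpow_le_rpow_of_exponent_le (by norm_num) hε1
        _ = 2 := Real.rpow_one 2
    rw [h16]
    exact mul_le_mul h17 h15 (Real.rpow_nonneg (by norm_num) _) (by norm_num)
  calc _ ≤ _ := h6
    _ = K₃ * ((1 / 2 : ℝ) ^ (n + 1) * ∑ j ∈ Finset.range (2 ^ (n + 1)),
      ‖deriv f (pt (n + 1) j)‖ * ‖f (pt (n + 1) j)‖ ^ (-2 : ℝ)) := by ring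
    _ ≤ K₃ * (K * (2 * (1 - r) ^ (-ε))) := by
        apply mul_le_mul_of_nonneg_left _ hK₃
        exact h8.trans (h7.trans (mul_le_mul_of_nonneg_left h12 hK))
    _ = K₃ * K * 2 * (1 - r) ^ (-ε) := by ring

end V5helper73.SZ
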