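import Pool.Agent.V5helper73.SZ.StmB

/-! # Project SZ: statements for Szegő's problem, `p = 5` -/

set_option autoImplicit false
open Complex Metric Set Filter Topology MeasureTheory

namespace V5helper73.SZ

/-- **OMI.** (60 lines)  A function of the class `S` omits a value of modulus at most `1`.
Proof. `f(z)/z` (`dslope f 0`) is holomorphic without zeros (injectivity; `f'(0) = 1`), so by the maximum principle for its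
reciprocal there is `z_r`, `|z_r| = r`, with `|f(z_r)| ≤ r`. Let `r → 1` along a subsequence with `f(z_r) → w₀`. If `w₀ = f(z*)`, then by the
open mapping theorem and injectivity `z_r` is in a given small disc about `z*` for `r` close to `1`, a contradiction
(see `notMem_image_of_boundary` in Pool.Agent.H790R2.TipTools for a similar argument). -/
def S_OMI : Prop := ∀ f : ℂ → ℂ, InS f → ∃ u : ℂ, ‖u‖ ≤ 1 ∧ ∀ v ∈ ball (0:ℂ) 1, f v ≠ u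

/-- **B1.** (200 lines, hypotheses `S_KT`, `S_TWO`, `S_GEO`, `S_CNT`, `S_HAR3`, `S_CHAR2`, `S_OMI`)  The number of the leaves below a
vertex with values of modulus about `M` and sizes `≥ ε`.
Proof. `a = pt k i`, `D = dd f a`, `g = kt f a`, `f` omits `w₀`, `|w₀| ≤ 1` (OMI), so `g` omits `u = (w₀ - f a)/(f'(a)(1-|a|²))`, `|u| ≥ 1/4`
(TWO (1) for the point `0`: no; use `Pool.Agent.H713R5.QJ.kb_omit` for `g`). Let `j ∈ s`, `ξ = bm a (pt m j) = s_j²` (HAR3). If `m - k ≤ 3`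
there are `≤ 8` elements and `ε ≤ dd f (pt m j) ≤ K σ` (TWO: `dd f z ≤ 16 (|f z - f a| + dd f a)` and `dd f z ≤ 8 |f z|`), trivial. Otherwise
`|ξ| ≥ 1/2`, `1 - |ξ|²` is between `2^(-(m-k))/K` and `4 · 2^(-(m-k))` (see CL1). `|g(ξ)| ≤ R`,
`|g'(ξ)| = dd f z/(D (1-|ξ|²)) ≥ ε 2^(m-k)/(4D)`; `|u - g(ξ)| ≤ |u| + R ≤ (1 + 4R)|u|`, and
`|u - g(ξ)| = |w₀ - f z|/D ≤ (1 + 2M)/D ≤ 18 M/D` (`|f z| ≥ |z|/4 ≥ 1/8` by TWO (1) with `a = 0`, so `M ≥ 1/16`). Hence by CHAR2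
`e^{Re A(s_j)} = |ξ||g'||u|/(|g||u - g|) ≥ c ε 2^(m-k)/σ`. CNT with `h_j = A(s_j)`, `T = 3/4`, `L = (m-k) log 2 + K`
(`log ((1+|s|²)/(1-|s|²)) ≤ -log (1 - |ξ|²) + 2 log 2`), the hypothesis of CNT by CHAR2 and HAR3 after splitting `s` into the `8` parts
`{j / (2^m/8) = q}` as in CL1 (`y = y2`, `Finset.orderEmbOfFin`): `|s| (ε 2^(m-k)/σ)^(3/4) ≤ K |s| + K (1+L) e^{5L/4}`, that is, as `|s| ≤ 2^(m-k)`,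
`|s| ≤ K (1 + m - k) (σ/ε)^(3/4) 2^((m-k)/2)`. -/
def S_B1 : Prop := ∀ R : ℝ, 0 < R → ∃ K : ℝ, 0 ≤ K ∧ ∀ f : ℂ → ℂ, InS f → ∀ k m i : ℕ, 2 ≤ k → k ≤ m → i < 2 ^ k →
  ∀ (s : Finset ℕ) (ε M : ℝ), 0 < ε → 0 < M →
  (∀ j ∈ s, j < 2 ^ m ∧ j / 2 ^ (m - k) = i ∧ ‖f (pt m j) - f (pt k i)‖ ≤ R * dd f (pt k i) ∧
    M ≤ ‖f (pt m j)‖ ∧ ‖f (pt m j)‖ ≤ 2 * M ∧ ε ≤ dd f (pt m j)) →
    (s.card : ℝ) ≤ K * (1 + ((m : ℝ) - k)) * (min M (dd f (pt k i)) / ε) ^ (3 / 4 : ℝ) * 2 ^ (((m : ℝ) - k) / 2)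

/-- **CLA.** (250 lines, hypotheses `S_TREE`, `S_AR`, `S_JM`, `S_B1`)  One level of modulus.
Proof. `D = dd f (pt k i)`, `σ = min M D`, `n = m - k`. `dd_j ≤ K₀ σ` for `j ∈ s` (`low`, `whit`). Dyadic classes
`s_b = {j : 2^(-b-1) K₀ σ < dd_j ≤ 2^(-b) K₀ σ}`, `b : ℕ`, `t = 2^(-b-1) K₀`, `ε = tσ`. The claim is `|s_b| t ≤ K (1+n) 2^((2/5 - 2η) n)` for `b ≤ n`, the
classes `b > n` contribute `∑ dd_j ≤ 2^n · 2^(-n) K₀ σ`; so the sum is at most `K σ (1+n)² 2^((2/5-2η) n)`. Three bounds: (1) B1: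
`|s_b| t ≤ K (1+n) t^(1/4) 2^(n/2)`; (2) AR (centre `0` if `M ≤ D`, else `f (pt k i)`): `|s_b| t ≤ K/t`; (3) JM with `A = 4` if `t ≤ 1`, `n ≤ 4 (1 + log₂ (1/t))`:
`|s_b| t ≤ K t^(-1+η₀)`. If `t ≥ 2^(-n/4)/2` (2) gives `K 2^(n/4)`; otherwise take the weighted geometric mean of (1) and (3) with the weights
`1-w, w`, `(1-w)/4 = w (1-η₀)`: the powers of `t` cancel, and `2^(n(1-w)/2)`, `(1-w)/2 = 2(1-η₀)/(5-4η₀) < 2/5`. -/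
def S_CLA : Prop := ∀ R : ℝ, 0 < R → ∃ K η : ℝ, 0 ≤ K ∧ 0 < η ∧ η ≤ 1 / 100 ∧ ∀ f : ℂ → ℂ, InS f → ∀ k m i : ℕ, 2 ≤ k → k ≤ m → i < 2 ^ k →
  ∀ (s : Finset ℕ) (M : ℝ), 0 < M →
  (∀ j ∈ s, j < 2 ^ m ∧ j / 2 ^ (m - k) = i ∧ ‖f (pt m j) - f (pt k i)‖ ≤ R * dd f (pt k i) ∧
    M ≤ ‖f (pt m j)‖ ∧ ‖f (pt m j)‖ ≤ 2 * M) →
    ∑ j ∈ s, dd f (pt m j) ≤ K * min M (dd f (pt k i)) * 2 ^ ((2 / 5 - η) * ((m : ℝ) - k))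

/-- **CL2.** (200 lines, hypotheses `S_TREE`, `S_CLA`)  All levels.
Proof. `k ≥ 2`: `D = dd f (pt k i)`, `x = ‖f (pt k i)‖`, levels `M = 2^a`, `a : ℤ`, `s_a = {j ∈ s : 2^a ≤ ‖f (pt m j)‖ < 2^(a+1)}`, so the sum is at most
`∑_a 2^(-4a/5) K min(2^a, D) 2^(..)` over the `a` with `s_a ≠ ∅`. Those with `2^a ≤ D`: `∑ 2^(a/5) ≤ K D^(1/5) ≤ K' D (x+D)^(-4/5)`, since
`x ≤ 2^(a+1) + RD ≤ (R+2) D`. Those with `2^a > D`: `x ≤ 2^(a+1) + RD ≤ (R+2) 2^a`, so `2^a ≥ c (x + D)`, `∑ D 2^(-4a/5) ≤ K D (x+D)^(-4/5)`.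
`k < 2`, `m ≥ 2`: split `s` by the ancestor `(2, j / 2^(m-2))` and use the case `k = 2` for each (at most `4`) with a larger `R`
(`step`, `parent`, `child`). `m < 2`: at most two terms, each at most `K`. -/
def S_CL2 : Prop := ∀ R : ℝ, 0 < R → ∃ K η : ℝ, 0 ≤ K ∧ 0 < η ∧ η ≤ 1 / 100 ∧ ∀ f : ℂ → ℂ, InS f → ∀ k m i : ℕ, k ≤ m → i < 2 ^ k →
  ∀ (s : Finset ℕ),
  (∀ j ∈ s, j < 2 ^ m ∧ j / 2 ^ (m - k) = i ∧ ‖f (pt m j) - f (pt k i)‖ ≤ R * dd f (pt k i)) →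
    ∑ j ∈ s, dd f (pt m j) * ‖f (pt m j)‖ ^ (-(4 / 5) : ℝ) ≤
      K * (dd f (pt k i) * (‖f (pt k i)‖ + dd f (pt k i)) ^ (-(4 / 5) : ℝ)) * 2 ^ ((2 / 5 - η) * ((m : ℝ) - k))

/-- **FIN2.** (120 lines, hypotheses `S_TREE`, `S_ATT`, `S_SUMX`, `S_CL2`, `S_MEAN`)  The integral means.
Proof. As FIN1, with `δ = 1/5`, `α = 1`, `β = 4/5`: `∑_{j < 2^m} dd_j ‖f_j‖^(-4/5) ≤ K ∑_k 4^(k/5) 2^((2/5-η)(m-k)) ≤ K' 2^(2m/5)`. Then MEAN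
(`‖f'(pt)‖ ≤ 2^m dd`), `m` with `1 - 2 · 2^(-m) ≤ r ≤ 1 - 2^(-m)`. -/
def S_FIN2 : Prop := ∃ K : ℝ, 0 ≤ K ∧ ∀ f : ℂ → ℂ, InS f → ∀ r : ℝ, 1 / 2 ≤ r → r < 1 →
  (1 / (2 * Real.pi)) * ∫ θ in (0:ℝ)..(2 * Real.pi), ‖deriv f (circleMap 0 r θ)‖ * ‖f (circleMap 0 r θ)‖ ^ (-(4 / 5) : ℝ) ≤
    K * (1 - r) ^ (-(2 / 5) : ℝ)

/-- **COEF.** (120 lines, hypothesis `S_FIN2`; `S_CAU` of GC.Stm2 as a hypothesis too)  The coefficients of the fifth root transform.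
Proof. `5 F⁴ F' = 5 z⁴ f'(z⁵)`, `|F(z)| = |f(z⁵)|^(1/5)`, so `|F'(z)| ≤ |f'(z⁵)| |f(z⁵)|^(-4/5)`; the mean over `|z| = ρ` of a function of `z⁵` is its mean
over `|v| = ρ⁵` (substitution `5θ`, periodicity: `Function.Periodic.intervalIntegral_add_eq`...). `S_CAU` for `F'`, order `5n`:
`(5n+1)! ...: ‖(5n)!⁻¹ iteratedDeriv (5n) F' 0‖ ρ^(5n) ≤ K (1 - ρ⁵)^(-2/5)`, `iteratedDeriv (5n+1) F = iteratedDeriv (5n) (deriv F)`, with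
`ρ⁵ = 1 - 1/(2n)`, `ρ^(5n) = (1 - 1/(2n))^n ≥ 1/2` (Bernoulli). -/
def S_COEF : Prop := ∃ K : ℝ, ∀ f : ℂ → ℂ, InS f → ∀ F : ℂ → ℂ, DifferentiableOn ℂ F (ball 0 1) →
  (∀ z ∈ ball (0:ℂ) 1, F z ^ 5 = f (z ^ 5)) → ∀ n : ℕ, 1 ≤ n →
    ‖(((5 * n + 1).factorial : ℂ)⁻¹ * iteratedDeriv (5 * n + 1) F 0)‖ ≤ K * (n : ℝ) ^ (-(3 / 5) : ℝ)

/-- **COEFP.** (the same proof for every `p ≥ 5`; hypotheses `S_FIN2`, `S_CAU`, `S_TWO` or any source of `|f v| ≥ |v|/4`)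
`|F'(z)| = |z|^(p-1) |f'(z^p)| |f(z^p)|^(1/p-1)` and `|f|^(1/p-1) ≤ 8 |f|^(-4/5)` for `|v| ≥ 1/2`, as `|f v| ≥ |v|/4 ≥ 1/8`
(TWO (1) with `a = 0`: `dd f 0 = 1`, `bm 0 v = v`). -/
def S_COEFP : Prop := ∀ p : ℕ, 5 ≤ p → ∃ K : ℝ, ∀ f : ℂ → ℂ, InS f → ∀ F : ℂ → ℂ, DifferentiableOn ℂ F (ball 0 1) →
  (∀ z ∈ ball (0:ℂ) 1, F z ^ p = f (z ^ p)) → ∀ n : ℕ, 1 ≤ n →
    ‖(((p * n + 1).factorial : ℂ)⁻¹ * iteratedDeriv (p * n + 1) F 0)‖ ≤ K * (n : ℝ) ^ (-(3 / 5) : ℝ)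

end V5helper73.SZ
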