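import Pool.Agent.V5helper73.SZ.StmC
import Pool.Agent.V5helper73.GC.EXT

/-! # Project SZ: back to the class `Σ` (a strict improvement: exponent `< 2/5` at `t = 1`) -/

set_option autoImplicit false
open Complex Metric Set Filter Topology MeasureTheory

namespace V5helper73.SZ

/-- **OMS.** (80 lines)  A map of the class `Σ` omits a value.
Proof. `K_R = ℂ \ ψ({|z| > R})`, `R > 1`: closed (open mapping theorem), nonempty (`ψ(z)` for `1 < |z| ≤ R`, injectivity), decreasing as `R ↓ 1`,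
bounded for `R = 2` (`v/Y(v)`, `Y = hat (ψ z/z) 1`, is holomorphic near `0` with the derivative `1`, so its values cover a neighbourhood of `0`;
`1/ψ(1/v) = v/Y(v)`), so their intersection is nonempty (compactness). -/
def S_OMS : Prop := ∀ ψ h : ℂ → ℂ, V5helper73.GC.IsSig ψ h → ∃ w : ℂ, ∀ z : ℂ, 1 < ‖z‖ → ψ z ≠ w

/-- **TRS.** (80 lines, hypothesis `S_OMS`)  From `Σ` to `S`: `f(v) = 1/(ψ(1/v) - w)`, `f(0) = 0`.
`f = v/(Y(v) - w v)` with `Y = hat (ψ z/z) 1` holomorphic on the ball (`S.sg`, field `G`), `Y(0) = 1`; `-ψ'(1/v)/v² = -f'(v)/f(v)²`. -/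
def S_TRS : Prop := ∀ ψ h : ℂ → ℂ, V5helper73.GC.IsSig ψ h → ∃ f : ℂ → ℂ, InS f ∧
  ∀ v : ℂ, v ≠ 0 → ‖v‖ < 1 → ‖deriv ψ v⁻¹‖ = ‖v‖ ^ 2 * ‖deriv f v‖ * ‖f v‖ ^ (-2 : ℝ)

/-- **SIGM.** the mean with the weight `|f|^(-2)` -/
def S_SIGM : Prop := ∃ K η : ℝ, 0 ≤ K ∧ 0 < η ∧ η ≤ 1 / 100 ∧ ∀ f : ℂ → ℂ, InS f → ∀ r : ℝ, 1 / 2 ≤ r → r < 1 →
  (1 / (2 * Real.pi)) * ∫ θ in (0:ℝ)..(2 * Real.pi), ‖deriv f (circleMap 0 r θ)‖ ^ (1:ℝ) * ‖f (circleMap 0 r θ)‖ ^ (-2 : ℝ) ≤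
    K * (1 - r) ^ (-(2 / 5 - η))

end V5helper73.SZ
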